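import Mathlib

set_option autoImplicit false

/-!
# Kernels of unimodular rows and extended modules
-/

namespace Pool.Agent.LamCex

open TensorProduct

/-- the linear form attached to a row of length 3 -/
noncomputable def rowMap {R : Type*} [CommRing R] (r : Fin 3 → R) : (Fin 3 → R) →ₗ[R] R where
  toFun x := r 0 * x 0 + r 1 * x 1 + r 2 * x 2
  map_add' x y := by simp only [Pi.add_apply]; ring
  map_smul' c x := by simp only [Pi.smul_apply, smul_eq_mul, RingHom.id_apply]; ring

lemma rowMap_apply {R : Type*} [CommRing R] (r x : Fin 3 → R) :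
    rowMap r x = r 0 * x 0 + r 1 * x 1 + r 2 * x 2 := rfl

/-- `ker r × R ≃ R³` for a unimodular row `r`. -/
noncomputable def splitEquiv {R : Type*} [CommRing R] (r w : Fin 3 → R) (h : rowMap r w = 1) :
    (LinearMap.ker (rowMap r) × (Fin 1 → R)) ≃ₗ[R] (Fin 3 → R) where
  toFun p := p.1.1 + p.2 0 • w
  invFun x := (⟨x - rowMap r x • w, by
    rw [LinearMap.mem_ker, map_sub, map_smul, h, smul_eq_mul, mul_one, sub_self]⟩,
    fun _ => rowMap r x)
  map_add' p q := by
    simp only [Prod.fst_add, Submodule.coe_add, Prod.snd_add, Pi.add_apply, add_smul]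
    abel
  map_smul' c p := by
    simp only [Prod.smul_fst, Submodule.coe_smul, Prod.smul_snd, Pi.smul_apply, smul_eq_mul,
      mul_smul, RingHom.id_apply, smul_add]
  left_inv p := by
    have hp : rowMap r p.1.1 = 0 := LinearMap.mem_ker.mp p.1.2
    have e : rowMap r (p.1.1 + p.2 0 • w) = p.2 0 := by
      rw [map_add, map_smul, h, hp, smul_eq_mul, mul_one, zero_add]
    refine Prod.ext (Subtype.ext ?_) (funext fun i => ?_)
    · simp only [e, add_sub_cancel_right]
    · rw [Subsingleton.elim i 0]; exact e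
  right_inv x := by
    simp only [sub_add_cancel]

section ev

variable {A : Type*} [CommRing A] [IsDomain A]

/-- The polynomial ring in one variable, as in the frozen statement. -/
abbrev PR (A : Type*) [CommRing A] : Type _ := MvPolynomial (Fin 1) A

/-- evaluation at `a` -/
noncomputable def ev (a : A) : PR A →+* A := MvPolynomial.eval (fun _ => a)

omit [IsDomain A] in
lemma exists_quot (a : A) (r : PR A) :
    ∃ r' : PR A, r - MvPolynomial.C (ev a r) = (MvPolynomial.X 0 - MvPolynomial.C a) * r' := by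
  induction r using MvPolynomial.induction_on with
  | C c => exact ⟨0, by simp [ev]⟩
  | add p q hp hq =>
    obtain ⟨p', hp⟩ := hp
    obtain ⟨q', hq⟩ := hq
    exact ⟨p' + q', by rw [map_add, map_add]; linear_combination hp + hq⟩
  | mul_X p i hp =>
    obtain ⟨p', hp⟩ := hp
    have hi : i = 0 := Subsingleton.elim _ _
    subst hi
    refine ⟨p' * MvPolynomial.X 0 + MvPolynomial.C (ev a p), ?_⟩
    have : ev a (p * MvPolynomial.X 0) = ev a p * a := by
      rw [map_mul]; simp [ev]
    rw [this, MvPolynomial.C_mul]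
    linear_combination (MvPolynomial.X 0) * hp

omit [IsDomain A] in
lemma ev_C (a c : A) : ev a (MvPolynomial.C c) = c := by simp [ev]

lemma X_sub_C_ne (a : A) : (MvPolynomial.X 0 - MvPolynomial.C a : PR A) ≠ 0 := by
  intro h
  have h1 := congrArg (ev (a + 1)) h
  rw [map_sub, ev_C, map_zero] at h1
  simp [ev] at h1

/-- evaluation as an `A`-linear map between kernels -/
noncomputable def kerEv (a : A) (r : Fin 3 → PR A) :
    LinearMap.ker (rowMap r) →ₗ[A] LinearMap.ker (rowMap (fun i => ev a (r i))) where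
  toFun x := ⟨fun i => ev a (x.1 i), by
    have h : rowMap r x.1 = 0 := LinearMap.mem_ker.mp x.2
    rw [LinearMap.mem_ker, rowMap_apply]
    have := congrArg (ev a) h
    rw [rowMap_apply] at this
    simpa only [map_add, map_mul, map_zero] using this⟩
  map_add' x y := by
    ext i
    simp
  map_smul' c x := by
    ext i
    simp [MvPolynomial.smul_eq_C_mul, ev_C]

omit [IsDomain A] in
lemma kerEv_surj (a : A) (r w : Fin 3 → PR A) (h : rowMap r w = 1) :
    Function.Surjective (kerEv a r) := by
  intro p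
  have hp : rowMap (fun i => ev a (r i)) p.1 = 0 := LinearMap.mem_ker.mp p.2
  set q : Fin 3 → PR A := fun i => MvPolynomial.C (p.1 i) with hq
  refine ⟨⟨q - rowMap r q • w, ?_⟩, ?_⟩
  · rw [LinearMap.mem_ker, map_sub, map_smul, h, smul_eq_mul, mul_one, sub_self]
  · ext i
    have : ev a (rowMap r q) = 0 := by
      rw [← hp, rowMap_apply, rowMap_apply]
      simp only [map_add, map_mul, hq, ev_C]
    simp only [kerEv, LinearMap.coe_mk, AddHom.coe_mk, Pi.sub_apply, Pi.smul_apply, smul_eq_mul,
      map_sub, map_mul, this, zero_mul, sub_zero]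
    simp only [hq, ev_C]

lemma kerEv_ker (a : A) (r : Fin 3 → PR A) (x : LinearMap.ker (rowMap r)) :
    kerEv a r x = 0 ↔ ∃ y : LinearMap.ker (rowMap r),
      x = (MvPolynomial.X 0 - MvPolynomial.C a : PR A) • y := by
  constructor
  · intro hx
    have hx' : ∀ i, ev a (x.1 i) = 0 := by
      intro i
      have := congrArg (fun z => z.1 i) hx
      simpa [kerEv] using this
    choose y hy using fun i => exists_quot a (x.1 i)
    have hy' : ∀ i, x.1 i = (MvPolynomial.X 0 - MvPolynomial.C a) * y i := by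
      intro i
      have := hy i
      rwa [hx' i, map_zero, sub_zero] at this
    have hxy : x.1 = (MvPolynomial.X 0 - MvPolynomial.C a : PR A) • y := by
      ext1 i; rw [hy' i]; rfl
    have hker : rowMap r y = 0 := by
      have h : rowMap r x.1 = 0 := LinearMap.mem_ker.mp x.2
      rw [hxy, map_smul, smul_eq_mul] at h
      exact (mul_eq_zero.mp h).resolve_left (X_sub_C_ne a)
    exact ⟨⟨y, LinearMap.mem_ker.mpr hker⟩, Subtype.ext hxy⟩
  · rintro ⟨y, rfl⟩
    ext i
    change ev a ((MvPolynomial.X 0 - MvPolynomial.C a) * y.1 i) = 0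
    rw [map_mul, map_sub, ev_C]
    simp [ev]

variable (Q : Type*) [AddCommGroup Q] [Module A Q]

/-- evaluation of an extended module -/
noncomputable def tenEv (a : A) : PR A ⊗[A] Q →ₗ[A] Q :=
  TensorProduct.lift
    { toFun := fun r => (ev a r) • LinearMap.id
      map_add' := fun r s => by rw [map_add, add_smul]
      map_smul' := fun c r => by
        rw [MvPolynomial.smul_eq_C_mul, map_mul, ev_C, mul_smul]; rfl }

omit [IsDomain A] in
lemma tenEv_tmul (a : A) (r : PR A) (q : Q) : tenEv Q a (r ⊗ₜ[A] q) = ev a r • q := rfl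

omit [IsDomain A] in
lemma tenEv_smul (a : A) (r : PR A) (z : PR A ⊗[A] Q) :
    tenEv Q a (r • z) = ev a r • tenEv Q a z := by
  induction z using TensorProduct.induction_on with
  | zero => simp
  | tmul s q => rw [TensorProduct.smul_tmul', tenEv_tmul, tenEv_tmul, smul_eq_mul, map_mul, mul_smul]
  | add x y hx hy => rw [smul_add, map_add, map_add, smul_add, hx, hy]

omit [IsDomain A] in
lemma tenEv_surj (a : A) : Function.Surjective (tenEv Q a) := fun q =>
  ⟨1 ⊗ₜ[A] q, by rw [tenEv_tmul, map_one, one_smul]⟩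

omit [IsDomain A] in
lemma tenEv_quot (a : A) (z : PR A ⊗[A] Q) : ∃ y : PR A ⊗[A] Q,
    z - 1 ⊗ₜ[A] (tenEv Q a z) = (MvPolynomial.X 0 - MvPolynomial.C a : PR A) • y := by
  induction z using TensorProduct.induction_on with
  | zero => exact ⟨0, by simp⟩
  | tmul s q =>
    obtain ⟨s', hs⟩ := exists_quot a s
    refine ⟨s' ⊗ₜ[A] q, ?_⟩
    rw [TensorProduct.smul_tmul', smul_eq_mul, ← hs, TensorProduct.sub_tmul, tenEv_tmul]
    congr 1
    rw [TensorProduct.tmul_smul, TensorProduct.smul_tmul', MvPolynomial.smul_eq_C_mul, mul_one]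
  | add x y hx hy =>
    obtain ⟨x', hx⟩ := hx
    obtain ⟨y', hy⟩ := hy
    refine ⟨x' + y', ?_⟩
    rw [smul_add, ← hx, ← hy, map_add, TensorProduct.tmul_add]
    abel

omit [IsDomain A] in
lemma tenEv_ker (a : A) (z : PR A ⊗[A] Q) : tenEv Q a z = 0 ↔ ∃ y : PR A ⊗[A] Q,
    z = (MvPolynomial.X 0 - MvPolynomial.C a : PR A) • y := by
  constructor
  · intro h
    obtain ⟨y, hy⟩ := tenEv_quot Q a z
    rw [h, TensorProduct.tmul_zero, sub_zero] at hy
    exact ⟨y, hy⟩
  · rintro ⟨y, rfl⟩
    rw [tenEv_smul]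
    simp [ev]

/-- If `ker r` is extended from `A`, then all its specialisations are isomorphic to `Q`. -/
theorem spec_equiv (a : A) (r w : Fin 3 → PR A) (h : rowMap r w = 1)
    (ψ : LinearMap.ker (rowMap r) ≃ₗ[PR A] PR A ⊗[A] Q) :
    Nonempty (LinearMap.ker (rowMap (fun i => ev a (r i))) ≃ₗ[A] Q) := by
  let g : LinearMap.ker (rowMap r) →ₗ[A] Q := (tenEv Q a).comp (ψ.toLinearMap.restrictScalars A)
  have hg : Function.Surjective g := (tenEv_surj Q a).comp ψ.surjective
  have hf := kerEv_surj a r w h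
  have hker : LinearMap.ker (kerEv a r) = LinearMap.ker g := by
    ext x
    rw [LinearMap.mem_ker, LinearMap.mem_ker, kerEv_ker]
    change _ ↔ tenEv Q a (ψ x) = 0
    rw [tenEv_ker]
    constructor
    · rintro ⟨y, hy⟩
      exact ⟨ψ y, by rw [hy, map_smul]⟩
    · rintro ⟨y, hy⟩
      refine ⟨ψ.symm y, ?_⟩
      apply ψ.injective
      rw [hy, map_smul, LinearEquiv.apply_symm_apply]
  exact ⟨((kerEv a r).quotKerEquivOfSurjective hf).symm.trans
    ((Submodule.quotEquivOfEq _ _ hker).trans (g.quotKerEquivOfSurjective hg))⟩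

end ev

end Pool.Agent.LamCex
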