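import Mathlib

set_option autoImplicit false

/-!
# Half operators on polynomial rings in characteristic two
-/

namespace Pool.Agent.LamCex

open Polynomial

section general

variable {R S : Type*} [CommRing R] [CommRing S]

/-- auxiliary: apply `A` to the coefficients `p.coeff (m * i)`. -/
noncomputable def subFun (m : ℕ) (A : R →+ S) (p : R[X]) : S[X] :=
  ∑ i ∈ Finset.range (p.natDegree + 1), monomial i (A (p.coeff (m * i)))

lemma subFun_coeff (m : ℕ) (hm : 0 < m) (A : R →+ S) (p : R[X]) (n : ℕ) :
    (subFun m A p).coeff n = A (p.coeff (m * n)) := by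
  simp only [subFun, finsetSum_coeff, coeff_monomial, Finset.sum_ite_eq', Finset.mem_range]
  split_ifs with h
  · rfl
  · have h1 : p.natDegree < m * n := by
      have : n ≤ m * n := Nat.le_mul_of_pos_left n hm
      omega
    rw [coeff_eq_zero_of_natDegree_lt h1, map_zero]

/-- Coefficientwise application of an additive map. -/
noncomputable def coeffMap (A : R →+ S) : R[X] →+ S[X] where
  toFun p := subFun 1 A p
  map_zero' := by ext n; rw [subFun_coeff _ one_pos]; simp
  map_add' p q := by
    ext n
    simp only [coeff_add, subFun_coeff _ one_pos, map_add]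

/-- `∑ f_i X^i ↦ ∑ A (f_{2i}) X^i`. -/
noncomputable def half (A : R →+ S) : R[X] →+ S[X] where
  toFun p := subFun 2 A p
  map_zero' := by ext n; rw [subFun_coeff _ two_pos]; simp
  map_add' p q := by
    ext n
    simp only [coeff_add, subFun_coeff _ two_pos, map_add]

lemma coeffMap_coeff (A : R →+ S) (p : R[X]) (n : ℕ) :
    (coeffMap A p).coeff n = A (p.coeff n) := by
  have := subFun_coeff 1 one_pos A p n
  rw [one_mul] at this
  exact this

lemma half_coeff (A : R →+ S) (p : R[X]) (n : ℕ) :
    (half A p).coeff n = A (p.coeff (2 * n)) :=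
  subFun_coeff 2 two_pos A p n

/-- semilinearity of `coeffMap` -/
lemma coeffMap_mul (A : R →+ S) (ψ : S →+* R) (hA : ∀ h f, A (ψ h * f) = h * A f)
    (h : S[X]) (f : R[X]) : coeffMap A (h.map ψ * f) = h * coeffMap A f := by
  ext n
  rw [coeffMap_coeff, coeff_mul, coeff_mul, map_sum]
  refine Finset.sum_congr rfl fun x _ => ?_
  rw [coeff_map, hA, coeffMap_coeff]

/-- semilinearity of `half` -/
lemma half_mul (A : R →+ S) (ψ : S →+* R) (hA : ∀ h f, A (ψ h * f) = h * A f)
    (h : S[X]) (f : R[X]) : half A (expand R 2 (h.map ψ) * f) = h * half A f := by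
  induction h using Polynomial.induction_on' with
  | add p q hp hq => simp only [Polynomial.map_add, map_add, add_mul, hp, hq]
  | monomial i c =>
    ext n
    rw [half_coeff, map_monomial, expand_monomial]
    by_cases hin : i ≤ n
    · obtain ⟨m, rfl⟩ := Nat.exists_eq_add_of_le hin
      rw [show 2 * (i + m) = 2 * m + i * 2 by ring, coeff_monomial_mul, hA, add_comm i m,
        coeff_monomial_mul, half_coeff]
    · rw [coeff_mul, coeff_mul, map_sum]
      rw [Finset.sum_eq_zero, Finset.sum_eq_zero]
      · intro x hx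
        rw [Finset.HasAntidiagonal.mem_antidiagonal] at hx
        rw [coeff_monomial, if_neg (by omega), zero_mul]
      · intro x hx
        rw [Finset.HasAntidiagonal.mem_antidiagonal] at hx
        rw [coeff_monomial, if_neg (by omega), zero_mul, map_zero]

lemma half_natDegree (A : R →+ S) (p : R[X]) (n : ℕ) (h : p.natDegree < 2 * n) :
    (half A p).degree < n := by
  rw [degree_lt_iff_coeff_zero]
  intro m hm
  rw [half_coeff, coeff_eq_zero_of_natDegree_lt (by omega), map_zero]

end general

section identity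

/-- The key algebraic identity. -/
lemma key_identity {C D : Type*} [CommRing C] [CommRing D] [CharP C 2] [CharP D 2]
    (ι : C →+* D) (ψ : D →+* C) (ν : C →+ D)
    (hν : ∀ h f, ν (ψ h * f) = h * ν f)
    (hιψ : ∀ h, ι (ψ h) = h ^ 2) (hψι : ∀ c, ψ (ι c) = c ^ 2)
    (a b c d E r : C) (hdet : a * d + b * c = 1)
    (hE : c * ψ (ν (a * b)) = E * a + r) :
    ι a * (ν E + ι E + ν (a * b) * ν (c * d)) = ι r + ν (a * r) := by
  have h2C : (2 : C) = 0 := CharTwo.two_eq_zero
  have h2D : (2 : D) = 0 := CharTwo.two_eq_zero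
  have e1 : ν (a * c) = ι c * ν (a * b) + ι a * ν (c * d) := by
    have : a * c = ψ (ι c) * (a * b) + ψ (ι a) * (c * d) := by
      rw [hψι, hψι]
      linear_combination (-(a * c)) * hdet + (0:C) * h2C
    rw [this, map_add, hν, hν]
  have e2 : ν (a * (c * ψ (ν (a * b)))) = ν (a * b) * ν (a * c) := by
    rw [← hν]; congr 1; ring
  have e3 : ν (a * (E * a + r)) = ι a * ν E + ν (a * r) := by
    have : a * (E * a + r) = ψ (ι a) * E + a * r := by rw [hψι]; ring
    rw [this, map_add, hν]
  have e4 : ι c * (ν (a * b)) ^ 2 = ι E * ι a + ι r := by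
    have h := congrArg ι hE
    rwa [ι.map_mul c, hιψ, ι.map_add, ι.map_mul E] at h
  rw [hE, e3] at e2
  rw [e1] at e2
  linear_combination e2 + e4 + (ι a * ι E + ι a * (ν (a * b) * ν (c * d)) - ν (a * r)) * h2D

end identity

end Pool.Agent.LamCex
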