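import Mathlib
import Pool.Agent.MP_ed7674_ag.Half

set_option autoImplicit false

/-!
# The functional equation for `SL_2` over `k[x,y]`

`C = k[y][x]`, represented as `k[X][X]` (outer variable `x`, inner variable `y`);
the target ring is `k[z][x]` where `z² = y`.
-/

namespace Pool.Agent.LamCex

open Polynomial

variable {k : Type*} [Field k] [CharP k 2]

lemma expand_map_frob {R : Type*} [CommRing R] [CharP R 2] (f : R[X]) :
    expand R 2 (f.map (frobenius R 2)) = f ^ 2 := by
  rw [← map_expand, map_frobenius_expand]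

/-- `ι : k[y][x] → k[z][x]`, `y ↦ z²`. -/
noncomputable def iot (k : Type*) [Field k] : k[X][X] →+* k[X][X] :=
  mapRingHom (expand k 2 : k[X] →+* k[X])

/-- `ψ : k[z][x] → k[y][x]`, the square of `h`, written in `y = z²`. -/
noncomputable def psi (k : Type*) [Field k] [CharP k 2] : k[X][X] →+* k[X][X] :=
  (expand k[X] 2 : k[X][X] →+* k[X][X]).comp (mapRingHom (mapRingHom (frobenius k 2)))

/-- `ν : k[y][x] → k[z][x]`. -/
noncomputable def nu (A : k →+ k) : k[X][X] →+ k[X][X] := half (coeffMap A)

lemma A_frob {A : k →+ k} (hA : ∀ r f, A (r ^ 2 * f) = r * A f) :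
    ∀ h f, A (frobenius k 2 h * f) = h * A f := by
  intro h f
  rw [frobenius_def]; exact hA h f

lemma nu_mul {A : k →+ k} (hA : ∀ r f, A (r ^ 2 * f) = r * A f) (h f : k[X][X]) :
    nu A (psi k h * f) = h * nu A f := by
  refine half_mul (coeffMap A) (mapRingHom (frobenius k 2)) ?_ h f
  intro h f
  exact coeffMap_mul A (frobenius k 2) (A_frob hA) h f

lemma iot_psi (h : k[X][X]) : iot k (psi k h) = h ^ 2 := by
  have h1 : (expand k 2 : k[X] →+* k[X]).comp (mapRingHom (frobenius k 2)) = frobenius k[X] 2 := by
    refine RingHom.ext fun f => ?_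
    rw [RingHom.comp_apply, frobenius_def]
    exact expand_map_frob f
  simp only [iot, psi, RingHom.comp_apply, coe_mapRingHom, RingHom.coe_coe]
  rw [map_expand, Polynomial.map_map, h1, expand_map_frob]

lemma psi_iot (c : k[X][X]) : psi k (iot k c) = c ^ 2 := by
  have h1 : (mapRingHom (frobenius k 2)).comp (expand k 2 : k[X] →+* k[X]) = frobenius k[X] 2 := by
    refine RingHom.ext fun f => ?_
    rw [RingHom.comp_apply, frobenius_def]
    exact map_frobenius_expand 2 f
  simp only [iot, psi, RingHom.comp_apply, coe_mapRingHom, RingHom.coe_coe]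
  rw [Polynomial.map_map, h1, expand_map_frob]

/-- the functional equation, monic case -/
lemma star_monic {A : k →+ k} (hA : ∀ r f, A (r ^ 2 * f) = r * A f)
    (a b c d : k[X][X]) (hdet : a * d + b * c = 1) (ha : a.Monic) :
    ∃ E : k[X][X], iot k E + nu A E = nu A (a * b) * nu A (c * d) := by
  set P := c * psi k (nu A (a * b)) with hP
  set E := P /ₘ a with hE
  set r := P %ₘ a with hr
  have hdiv : c * psi k (nu A (a * b)) = E * a + r := by
    rw [← hP, hE, hr, add_comm, mul_comm]
    exact (modByMonic_add_div P a).symm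
  have hkey := key_identity (iot k) (psi k) (nu A) (nu_mul hA) iot_psi psi_iot a b c d E r hdet hdiv
  refine ⟨E, ?_⟩
  have hιa : (iot k a).Monic := ha.map _
  have hdega : (iot k a).degree = a.degree := ha.degree_map _
  have hrdeg : r.degree < a.degree := degree_modByMonic_lt P ha
  have h1 : (iot k r).degree < a.degree := lt_of_le_of_lt (degree_map_le) hrdeg
  have h2 : (nu A (a * r)).degree < a.degree := by
    by_cases hr0 : r = 0
    · rw [hr0, mul_zero, map_zero, degree_zero]
      exact bot_lt_iff_ne_bot.mpr (degree_ne_bot.mpr ha.ne_zero)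
    · have : r.natDegree < a.natDegree := natDegree_lt_natDegree hr0 hrdeg
      rw [degree_eq_natDegree ha.ne_zero]
      refine half_natDegree _ _ _ ?_
      have := natDegree_mul_le (p := a) (q := r)
      omega
  have hz : nu A E + iot k E + nu A (a * b) * nu A (c * d) = 0 := by
    by_contra hne
    have hdeg : (iot k a).degree ≤
        (iot k a * (nu A E + iot k E + nu A (a * b) * nu A (c * d))).degree := by
      rw [degree_mul]
      exact le_add_of_nonneg_right (zero_le_degree_iff.mpr hne)
    rw [hkey, hdega] at hdeg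
    exact absurd (lt_of_le_of_lt (degree_add_le _ _) (max_lt h1 h2)) (not_lt.mpr hdeg)
  have h3 : nu A (a * b) * nu A (c * d) = -(nu A E + iot k E) := by
    linear_combination hz
  rw [h3, CharTwo.neg_eq, add_comm]

/-- the functional equation, when the leading coefficient in `x` is a nonzero constant -/
lemma star_unit {A : k →+ k} (hA : ∀ r f, A (r ^ 2 * f) = r * A f)
    (a b c d : k[X][X]) (hdet : a * d + b * c = 1) (u : k) (hu : u ≠ 0)
    (ha : a.leadingCoeff = C u) :
    ∃ E : k[X][X], iot k E + nu A E = nu A (a * b) * nu A (c * d) := by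
  have huu : C (C u⁻¹) * C (C u) = (1 : k[X][X]) := by
    rw [← C_mul, ← C_mul, inv_mul_cancel₀ hu, C_1, C_1]
  have hmon : (C (C u⁻¹) * a).Monic := by
    have hne : C u⁻¹ ≠ (0 : k[X]) := by
      rw [Ne, C_eq_zero]; exact inv_ne_zero hu
    rw [Monic, leadingCoeff_mul, leadingCoeff_C, ha, ← C_mul, inv_mul_cancel₀ hu, C_1]
  obtain ⟨E, hE⟩ := star_monic hA (C (C u⁻¹) * a) (C (C u) * b) (C (C u⁻¹) * c) (C (C u) * d)
    (by linear_combination hdet + (a * d + b * c) * huu) hmon
  refine ⟨E, ?_⟩
  rw [hE]
  have e1 : C (C u⁻¹) * a * (C (C u) * b) = a * b := by linear_combination (a * b) * huu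
  have e2 : C (C u⁻¹) * c * (C (C u) * d) = c * d := by linear_combination (c * d) * huu
  rw [e1, e2]

end Pool.Agent.LamCex
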