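import Mathlib
import Pool.Agent.MP_ed7674_ag.Star

set_option autoImplicit false

/-!
# Restriction to parametrised curves, and the Nagata substitution
-/

namespace Pool.Agent.LamCex

open Polynomial

variable {k : Type*} [Field k]

/-- restriction to the curve `x = s`, `y = p(s)`. -/
noncomputable def rho (p : k[X]) : k[X][X] →+* k[X] :=
  eval₂RingHom (eval₂RingHom C p) X

@[simp] lemma rho_X (p : k[X]) : rho p X = X := by simp [rho]

@[simp] lemma rho_CX (p : k[X]) : rho p (C X) = p := by simp [rho]

@[simp] lemma rho_CC (p : k[X]) (c : k) : rho p (C (C c)) = C c := by simp [rho]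

lemma ringHom_ext2 {S : Type*} [CommRing S] {f g : k[X][X] →+* S}
    (h1 : ∀ c : k, f (C (C c)) = g (C (C c))) (h2 : f (C X) = g (C X)) (h3 : f X = g X) :
    f = g := by
  refine Polynomial.ringHom_ext' ?_ h3
  refine Polynomial.ringHom_ext' ?_ h2
  exact RingHom.ext h1

lemma rho_iot (τ : k[X]) (f : k[X][X]) : rho τ (iot k f) = rho (τ ^ 2) f := by
  have : (rho τ).comp (iot k) = rho (τ ^ 2) := by
    refine ringHom_ext2 ?_ ?_ ?_
    · intro c; simp [iot]
    · simp only [RingHom.comp_apply, iot, coe_mapRingHom, map_C, RingHom.coe_coe, expand_X,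
        rho_CX]
      rw [C_pow, map_pow, rho_CX]
    · simp [iot]
  rw [← this]; rfl

variable [CharP k 2]

lemma half_sq_mul {A : k →+ k} (hA : ∀ r f, A (r ^ 2 * f) = r * A f) (h f : k[X]) :
    half A (h ^ 2 * f) = h * half A f := by
  rw [← expand_map_frob h]
  exact half_mul A (frobenius k 2) (A_frob hA) h f

omit [CharP k 2] in
lemma half_monomial_even (A : k →+ k) (i : ℕ) (c : k) :
    half A (monomial (2 * i) c) = monomial i (A c) := by
  ext n
  rw [half_coeff, coeff_monomial, coeff_monomial]
  split_ifs with h1 h2 h2
  · rfl
  · omega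
  · omega
  · exact map_zero A

omit [CharP k 2] in
lemma half_monomial_odd (A : k →+ k) (i : ℕ) (c : k) :
    half A (monomial (2 * i + 1) c) = 0 := by
  ext n
  rw [half_coeff, coeff_monomial, if_neg (by omega), map_zero, coeff_zero]

omit [CharP k 2] in
lemma coeffMap_monomial (A : k →+ k) (i : ℕ) (c : k) :
    coeffMap A (monomial i c) = monomial i (A c) := by
  ext n
  rw [coeffMap_coeff, coeff_monomial, coeff_monomial]
  split_ifs with h1
  · rfl
  · exact map_zero A

omit [CharP k 2] in
lemma rho_monomial (p : k[X]) (i j : ℕ) (c : k) :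
    rho p (monomial i (monomial j c)) = p ^ j * monomial i c := by
  rw [← C_mul_X_pow_eq_monomial, ← C_mul_X_pow_eq_monomial, ← C_mul_X_pow_eq_monomial]
  simp only [map_mul, map_pow, rho_CC, rho_CX, rho_X]
  ring

omit [CharP k 2] in
lemma nu_monomial_even (A : k →+ k) (i j : ℕ) (c : k) :
    nu A (monomial (2 * i) (monomial j c)) = monomial i (monomial j (A c)) := by
  refine Polynomial.ext fun n => ?_
  rw [nu, half_coeff, coeff_monomial, coeff_monomial]
  split_ifs with h1 h2 h2
  · exact coeffMap_monomial A j c
  · omega
  · omega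
  · exact map_zero _

omit [CharP k 2] in
lemma nu_monomial_odd (A : k →+ k) (i j : ℕ) (c : k) :
    nu A (monomial (2 * i + 1) (monomial j c)) = 0 := by
  refine Polynomial.ext fun n => ?_
  rw [nu, half_coeff, coeff_monomial, if_neg (by omega), map_zero, coeff_zero]

/-- naturality of the half operators under restriction to a curve -/
lemma half_rho {A : k →+ k} (hA : ∀ r f, A (r ^ 2 * f) = r * A f) (τ : k[X]) (f : k[X][X]) :
    half A (rho (τ ^ 2) f) = rho τ (nu A f) := by
  induction f using Polynomial.induction_on' with
  | add p q hp hq => simp only [map_add, hp, hq]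
  | monomial i g =>
    induction g using Polynomial.induction_on' with
    | add p q hp hq => simp only [map_add, hp, hq]
    | monomial j c =>
      rw [rho_monomial, ← pow_mul, mul_comm 2 j, pow_mul, half_sq_mul hA]
      rcases Nat.even_or_odd' i with ⟨m, rfl | rfl⟩
      · rw [half_monomial_even, nu_monomial_even, rho_monomial]
      · rw [half_monomial_odd, nu_monomial_odd, map_zero, mul_zero]

omit [CharP k 2] in
/-- restrictions to two curves are congruent -/
lemma rho_sub_dvd (p q : k[X]) (f : k[X][X]) : p - q ∣ rho p f - rho q f := by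
  induction f using Polynomial.induction_on' with
  | add f g hf hg =>
    have : rho p (f + g) - rho q (f + g) = (rho p f - rho q f) + (rho p g - rho q g) := by
      simp only [map_add]; ring
    rw [this]; exact dvd_add hf hg
  | monomial i g =>
    induction g using Polynomial.induction_on' with
    | add f g hf hg =>
      have : rho p (monomial i (f + g)) - rho q (monomial i (f + g))
          = (rho p (monomial i f) - rho q (monomial i f))
            + (rho p (monomial i g) - rho q (monomial i g)) := by
        simp only [map_add]; ring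
      rw [this]; exact dvd_add hf hg
    | monomial j c =>
      rw [rho_monomial, rho_monomial, ← sub_mul]
      exact (sub_dvd_pow_sub_pow p q j).mul_right _

/-- The Nagata substitution `y ↦ y + x^N`. -/
noncomputable def nag (k : Type*) [Field k] (N : ℕ) : k[X][X] →+* k[X][X] :=
  eval₂RingHom (eval₂RingHom (C.comp C) (X ^ N + C X)) X

omit [CharP k 2] in
lemma rho_nag (p : k[X]) (N : ℕ) (f : k[X][X]) :
    rho p (nag k N f) = rho (X ^ N + p) f := by
  have : (rho p).comp (nag k N) = rho (X ^ N + p) := by
    refine ringHom_ext2 ?_ ?_ ?_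
    · intro c; simp [nag]
    · simp [nag]
    · simp [nag]
  rw [← this]; rfl

end Pool.Agent.LamCex
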