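import Mathlib
import Pool.Agent.MP_ed7674_ag.Curve

set_option autoImplicit false

/-!
# The leading coefficient after the Nagata substitution
-/

namespace Pool.Agent.LamCex

open Polynomial

lemma exists_leading_of_distinct {ι R : Type*} [CommRing R] (s : Finset ι) (hs : s.Nonempty)
    (f : ι → R[X]) (hinj : ∀ i ∈ s, ∀ j ∈ s, i ≠ j → (f i).degree ≠ (f j).degree) :
    ∃ i ∈ s, (∑ j ∈ s, f j).degree = (f i).degree ∧
      (∑ j ∈ s, f j).leadingCoeff = (f i).leadingCoeff := by
  classical
  induction hs using Finset.Nonempty.cons_induction with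
  | singleton a => exact ⟨a, by simp, by simp, by simp⟩
  | cons a s ha hs ih =>
    obtain ⟨i, hi, hdeg, hlc⟩ := ih (fun i hi j hj hij =>
      hinj i (Finset.mem_cons_of_mem hi) j (Finset.mem_cons_of_mem hj) hij)
    have hne : (f a).degree ≠ (f i).degree :=
      hinj a (Finset.mem_cons_self a s) i (Finset.mem_cons_of_mem hi) (by
        rintro rfl; exact ha hi)
    rw [Finset.sum_cons]
    rcases lt_or_gt_of_ne hne with h | h
    · rw [← hdeg] at h
      refine ⟨i, Finset.mem_cons_of_mem hi, ?_, ?_⟩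
      · rw [degree_add_eq_right_of_degree_lt h, hdeg]
      · rw [leadingCoeff_add_of_degree_lt h, hlc]
    · rw [← hdeg] at h
      refine ⟨a, Finset.mem_cons_self a s, ?_, ?_⟩
      · rw [degree_add_eq_left_of_degree_lt h]
      · rw [leadingCoeff_add_of_degree_lt' h]

variable {k : Type*} [Field k]

lemma nag_C (N : ℕ) (g : k[X]) :
    nag k N (C g) = (g.map (C : k →+* k[X])).comp (X ^ N + C X) := by
  simp only [nag, coe_eval₂RingHom, eval₂_C, comp, eval₂_map]

lemma nag_term_natDegree (N : ℕ) (hN : 0 < N) (g : k[X]) (i : ℕ) (hg : g ≠ 0) :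
    (nag k N (C g) * X ^ i).natDegree = g.natDegree * N + i := by
  have hne : nag k N (C g) ≠ 0 := by
    rw [nag_C]
    intro h
    have hmon : (X ^ N + C X : k[X][X]).natDegree = N := natDegree_X_pow_add_C
    rcases comp_eq_zero_iff.mp h with h | ⟨_, h⟩
    · exact hg ((map_injective _ (C_injective)) (by rw [h, Polynomial.map_zero]))
    · have := congrArg natDegree h
      rw [hmon, natDegree_C] at this
      omega
  rw [natDegree_mul hne (pow_ne_zero _ X_ne_zero), natDegree_X_pow, nag_C, natDegree_comp,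
    natDegree_X_pow_add_C, natDegree_map_eq_of_injective C_injective]

lemma nag_term_leadingCoeff (N : ℕ) (hN : 0 < N) (g : k[X]) (i : ℕ) :
    (nag k N (C g) * X ^ i).leadingCoeff = C g.leadingCoeff := by
  rw [leadingCoeff_mul, leadingCoeff_X_pow, mul_one, nag_C, leadingCoeff_comp]
  · rw [leadingCoeff_map_of_injective C_injective, leadingCoeff_X_pow_add_C hN, one_pow, mul_one]
  · rw [natDegree_X_pow_add_C]; omega

lemma nag_leadingCoeff (a : k[X][X]) (ha : a ≠ 0) (N : ℕ) (hN : a.natDegree < N) :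
    ∃ u : k, u ≠ 0 ∧ (nag k N a).leadingCoeff = C u := by
  have hN0 : 0 < N := by omega
  have hsum : nag k N a = ∑ i ∈ a.support, nag k N (C (a.coeff i)) * X ^ i := by
    conv_lhs => rw [a.as_sum_support_C_mul_X_pow]
    rw [map_sum]
    refine Finset.sum_congr rfl fun i _ => ?_
    rw [map_mul, map_pow]
    congr 2
    simp [nag]
  have hs : a.support.Nonempty := nonempty_support_iff.mpr ha
  obtain ⟨i, hi, -, hlc⟩ := exists_leading_of_distinct a.support hs
    (fun i => nag k N (C (a.coeff i)) * X ^ i) (by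
      intro i hi j hj hij hdeg
      have hi0 : a.coeff i ≠ 0 := mem_support_iff.mp hi
      have hj0 : a.coeff j ≠ 0 := mem_support_iff.mp hj
      have h := natDegree_eq_of_degree_eq hdeg
      rw [nag_term_natDegree N hN0 _ i hi0, nag_term_natDegree N hN0 _ j hj0] at h
      have hiN : i < N := lt_of_le_of_lt (le_natDegree_of_mem_supp _ hi) hN
      have hjN : j < N := lt_of_le_of_lt (le_natDegree_of_mem_supp _ hj) hN
      apply hij
      have h1 : (a.coeff i).natDegree = (a.coeff j).natDegree := by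
        have e1 : ((a.coeff i).natDegree * N + i) / N = (a.coeff i).natDegree := by
          rw [mul_comm, Nat.mul_add_div hN0, Nat.div_eq_of_lt hiN, add_zero]
        have e2 : ((a.coeff j).natDegree * N + j) / N = (a.coeff j).natDegree := by
          rw [mul_comm, Nat.mul_add_div hN0, Nat.div_eq_of_lt hjN, add_zero]
        rw [← e1, ← e2, h]
      rw [h1] at h
      omega)
  refine ⟨(a.coeff i).leadingCoeff, ?_, ?_⟩
  · exact leadingCoeff_ne_zero.mpr (mem_support_iff.mp hi)
  · rw [hsum, hlc, nag_term_leadingCoeff N hN0]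

variable [CharP k 2]

/-- **Obstruction theorem.**  For `SL_2(k[x,y])` in characteristic two. -/
theorem obstruction {A : k →+ k} (hA : ∀ r f, A (r ^ 2 * f) = r * A f)
    (a b c d : k[X][X]) (hdet : a * d + b * c = 1) (ha : a ≠ 0) :
    ∃ e0 e1 : k[X],
      e0 + half A e0 = half A (rho 0 a * rho 0 b) * half A (rho 0 c * rho 0 d) ∧
      e1 + half A e1 = half A (rho (X ^ 2) a * rho (X ^ 2) b)
        * half A (rho (X ^ 2) c * rho (X ^ 2) d) ∧
      X ^ 2 ∣ e1 - e0 := by
  set M := a.natDegree + 1 with hM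
  obtain ⟨u, hu, hlc⟩ := nag_leadingCoeff a ha (M * 2) (by omega)
  have hdet' : nag k (M * 2) a * nag k (M * 2) d + nag k (M * 2) b * nag k (M * 2) c = 1 := by
    rw [← map_mul, ← map_mul, ← map_add, hdet, map_one]
  obtain ⟨E, hE⟩ := star_unit hA _ _ _ _ hdet' u hu hlc
  have key : ∀ (τ p : k[X]), X ^ (M * 2) + τ ^ 2 = p →
      rho (τ ^ 2) E + half A (rho (τ ^ 2) E) =
        half A (rho p a * rho p b) * half A (rho p c * rho p d) := by
    intro τ p hp
    have h := congrArg (rho τ) hE
    rw [map_add, rho_iot, ← half_rho hA, map_mul, ← half_rho hA, ← half_rho hA] at h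
    rw [h, (rho (τ ^ 2)).map_mul, (rho (τ ^ 2)).map_mul, rho_nag, rho_nag, rho_nag, rho_nag, hp]
  refine ⟨rho ((X ^ M) ^ 2) E, rho ((X ^ M + X) ^ 2) E, ?_, ?_, ?_⟩
  · refine key (X ^ M) 0 ?_
    rw [← pow_mul]
    exact CharTwo.add_self_eq_zero _
  · refine key (X ^ M + X) (X ^ 2) ?_
    rw [CharTwo.add_sq, ← pow_mul, ← add_assoc, CharTwo.add_self_eq_zero, zero_add]
  · have h := rho_sub_dvd ((X ^ M + X) ^ 2) ((X ^ M) ^ 2) E
    have e : ((X ^ M + X) ^ 2 - (X ^ M) ^ 2 : k[X]) = X ^ 2 := by
      rw [CharTwo.add_sq]; ring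
    rwa [e] at h

end Pool.Agent.LamCex
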