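import Mathlib
import Pool.Agent.MP_ed7674_ag.Nagata

set_option autoImplicit false

/-!
# A matrix over `k[s]`, trivial modulo `s²`, which does not lift to `SL_2(k[x,y])`
-/

namespace Pool.Agent.LamCex

open Polynomial

variable {k : Type*} [Field k] [CharP k 2]

omit [CharP k 2] in
lemma half_C_mul_one_add (A : k →+ k) (m : k) : half A (C m * (1 + X)) = C (A m) := by
  have : C m * (1 + X) = monomial (2 * 0) m + monomial (2 * 0 + 1) m := by
    rw [← C_mul_X_pow_eq_monomial, ← C_mul_X_pow_eq_monomial]; ring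
  rw [this, map_add, half_monomial_even, half_monomial_odd, add_zero, monomial_zero_left]

lemma half_term {A : k →+ k} (hA : ∀ r f, A (r ^ 2 * f) = r * A f) (h : k[X]) (m : k) :
    half A (h ^ 2 * (C m * (1 + X))) = h * C (A m) := by
  rw [half_sq_mul hA, half_C_mul_one_add]

/-- half of a sum in normal form -/
lemma half_normal {A : k →+ k} (hA : ∀ r f, A (r ^ 2 * f) = r * A f) (v w : k)
    (h1 : A 1 = 1) (hv : A v = 0) (hw : A w = 0) (hvw : A (v * w) = 0)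
    (p q r s : k[X]) :
    half A (p ^ 2 * (1 + X) + q ^ 2 * (C v * (1 + X)) + r ^ 2 * (C w * (1 + X))
      + s ^ 2 * (C (v * w) * (1 + X))) = p := by
  have e : p ^ 2 * (1 + X) = p ^ 2 * (C 1 * (1 + X)) := by rw [C_1, one_mul]
  rw [e, map_add, map_add, map_add, half_term hA, half_term hA, half_term hA, half_term hA,
    h1, hv, hw, hvw]
  simp

omit [CharP k 2] in
lemma coeff_rec_zero {A : k →+ k} (e : k[X]) (l : ℕ)
    (h : ∀ m, l ≤ m → e.coeff (2 ^ m) + A (e.coeff (2 ^ (m + 1))) = 0) :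
    e.coeff (2 ^ l) = 0 := by
  have hlarge : ∀ m, e.natDegree < 2 ^ m → e.coeff (2 ^ m) = 0 :=
    fun m hm => coeff_eq_zero_of_natDegree_lt hm
  obtain ⟨L, hL⟩ : ∃ L, e.natDegree < 2 ^ (l + L) := by
    refine ⟨e.natDegree, ?_⟩
    calc e.natDegree < 2 ^ e.natDegree := Nat.lt_two_pow_self
      _ ≤ 2 ^ (l + e.natDegree) := Nat.pow_le_pow_right (by norm_num) (by omega)
  have key : ∀ j, j ≤ L → e.coeff (2 ^ (l + (L - j))) = 0 := by
    intro j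
    induction j with
    | zero => intro _; exact hlarge _ hL
    | succ j ih =>
      intro hj
      have h1 := h (l + (L - (j + 1))) (by omega)
      have e1 : l + (L - (j + 1)) + 1 = l + (L - j) := by omega
      rw [e1, ih (by omega), map_zero, add_zero] at h1
      exact h1
  simpa using key L le_rfl

lemma ident_core {R : Type*} [CommRing R] (h2 : (2 : R) = 0) (V W U X S : R) (h : U * W = 1) :
    (1 + V) * (1 + (1 + W) * X ^ 4) * (1 + W) * (1 + (1 + V) * (U + W) * S ^ 4) =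
    (1 + (1 + W) * X ^ 2 + (1 + V) * (1 + W) * S ^ 2) ^ 2
    + V * (1 + (1 + W) * X ^ 2) ^ 2
    + W * (1 + (1 + V) * (1 + U) * S ^ 2 * (1 + (1 + W) * X ^ 2)) ^ 2
    + V * W := by
  linear_combination (
      (-2) * S ^ 2 + (-1) * S ^ 4 + (-2) * X ^ 2 * S ^ 2 + (-6) * X ^ 2 * S ^ 4 +
      (-2) * X ^ 4 * S ^ 4 + (-1) * U * S ^ 4 + (-2) * U * X ^ 2 * S ^ 4 +
      (-1) * U * X ^ 4 * S ^ 4 + (-2) * W * X ^ 2 * S ^ 2 + (-4) * W * X ^ 2 * S ^ 4 +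
      (-4) * W * X ^ 4 * S ^ 4 + (-2) * W * U * X ^ 2 * S ^ 4 + (-2) * W * U * X ^ 4 * S ^ 4 +
      (-2) * W ^ 2 * X ^ 4 * S ^ 4 + (-1) * W ^ 2 * U * X ^ 4 * S ^ 4 + (-2) * V * S ^ 2 +
      (-2) * V * S ^ 4 + (-2) * V * X ^ 2 * S ^ 2 + (-12) * V * X ^ 2 * S ^ 4 +
      (-4) * V * X ^ 4 * S ^ 4 + (-2) * V * U * S ^ 4 + (-4) * V * U * X ^ 2 * S ^ 4 +
      (-2) * V * U * X ^ 4 * S ^ 4 + (-2) * V * W * X ^ 2 * S ^ 2 +
      (-8) * V * W * X ^ 2 * S ^ 4 + (-8) * V * W * X ^ 4 * S ^ 4 +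
      (-4) * V * W * U * X ^ 2 * S ^ 4 + (-4) * V * W * U * X ^ 4 * S ^ 4 +
      (-4) * V * W ^ 2 * X ^ 4 * S ^ 4 + (-2) * V * W ^ 2 * U * X ^ 4 * S ^ 4 +
      (-1) * V ^ 2 * S ^ 4 + (-6) * V ^ 2 * X ^ 2 * S ^ 4 + (-2) * V ^ 2 * X ^ 4 * S ^ 4 +
      (-1) * V ^ 2 * U * S ^ 4 + (-2) * V ^ 2 * U * X ^ 2 * S ^ 4 +
      (-1) * V ^ 2 * U * X ^ 4 * S ^ 4 + (-4) * V ^ 2 * W * X ^ 2 * S ^ 4 +
      (-4) * V ^ 2 * W * X ^ 4 * S ^ 4 + (-2) * V ^ 2 * W * U * X ^ 2 * S ^ 4 +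
      (-2) * V ^ 2 * W * U * X ^ 4 * S ^ 4 + (-2) * V ^ 2 * W ^ 2 * X ^ 4 * S ^ 4 +
      (-1) * V ^ 2 * W ^ 2 * U * X ^ 4 * S ^ 4) * h + (
      (-2) * S ^ 2 + (-1) * S ^ 4 + (-1) * X ^ 2 + (-2) * X ^ 2 * S ^ 2 +
      (-3) * X ^ 2 * S ^ 4 + (-1) * X ^ 4 * S ^ 4 + (-1) * U * X ^ 2 * S ^ 4 +
      (-2) * W * S ^ 2 + (-1) * W * S ^ 4 + (-1) * W * X ^ 2 + (-4) * W * X ^ 2 * S ^ 2 +
      (-3) * W * X ^ 2 * S ^ 4 + (-2) * W * X ^ 4 * S ^ 4 + (-2) * W ^ 2 * X ^ 2 * S ^ 2 +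
      (-1) * W ^ 2 * X ^ 2 * S ^ 4 + (-1) * W ^ 2 * X ^ 4 * S ^ 4 + (-2) * V * S ^ 2 +
      (-2) * V * S ^ 4 + (-1) * V * X ^ 2 + (-2) * V * X ^ 2 * S ^ 2 +
      (-6) * V * X ^ 2 * S ^ 4 + (-2) * V * X ^ 4 * S ^ 4 + (-2) * V * U * X ^ 2 * S ^ 4 +
      (-2) * V * W * S ^ 2 + (-2) * V * W * S ^ 4 + (-1) * V * W * X ^ 2 +
      (-4) * V * W * X ^ 2 * S ^ 2 + (-6) * V * W * X ^ 2 * S ^ 4 +
      (-4) * V * W * X ^ 4 * S ^ 4 + (-2) * V * W ^ 2 * X ^ 2 * S ^ 2 +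
      (-2) * V * W ^ 2 * X ^ 2 * S ^ 4 + (-2) * V * W ^ 2 * X ^ 4 * S ^ 4 +
      (-1) * V ^ 2 * S ^ 4 + (-3) * V ^ 2 * X ^ 2 * S ^ 4 + (-1) * V ^ 2 * X ^ 4 * S ^ 4 +
      (-1) * V ^ 2 * U * X ^ 2 * S ^ 4 + (-1) * V ^ 2 * W * S ^ 4 +
      (-3) * V ^ 2 * W * X ^ 2 * S ^ 4 + (-2) * V ^ 2 * W * X ^ 4 * S ^ 4 +
      (-1) * V ^ 2 * W ^ 2 * X ^ 2 * S ^ 4 + (-1) * V ^ 2 * W ^ 2 * X ^ 4 * S ^ 4) * h2

/-- the (1,2)-entry type identity -/
lemma ident (v w u : k) (huw : u * w = 1) (T S : k[X]) :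
    (1 + C v) * (1 + (1 + C w) * X ^ 4) * (1 + C w) * (T ^ 2 * (1 + X))
      * (1 + (1 + C v) * (C u + C w) * S ^ 4) =
    (T * (1 + (1 + C w) * X ^ 2 + (1 + C v) * (1 + C w) * S ^ 2)) ^ 2 * (1 + X)
    + (T * (1 + (1 + C w) * X ^ 2)) ^ 2 * (C v * (1 + X))
    + (T * (1 + (1 + C v) * (1 + C u) * S ^ 2 * (1 + (1 + C w) * X ^ 2))) ^ 2 * (C w * (1 + X))
    + T ^ 2 * (C (v * w) * (1 + X)) := by
  have h2 : (2 : k[X]) = 0 := CharTwo.two_eq_zero
  have h : C u * C w = (1 : k[X]) := by rw [← C_mul, huw, C_1]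
  have := ident_core h2 (C v) (C w) (C u) X S h
  rw [C_mul]
  linear_combination (T ^ 2 * (1 + X)) * this

lemma half_ident {A : k →+ k} (hA : ∀ r f, A (r ^ 2 * f) = r * A f) (v w u : k)
    (h1 : A 1 = 1) (hv : A v = 0) (hw : A w = 0) (hvw : A (v * w) = 0) (huw : u * w = 1)
    (T S : k[X]) :
    half A ((1 + C v) * (1 + (1 + C w) * X ^ 4) * (1 + C w) * (T ^ 2 * (1 + X))
      * (1 + (1 + C v) * (C u + C w) * S ^ 4)) =
    T * (1 + (1 + C w) * X ^ 2 + (1 + C v) * (1 + C w) * S ^ 2) := by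
  rw [ident v w u huw, half_normal hA v w h1 hv hw hvw]

omit [CharP k 2] in
lemma expand_R (α β γ δ : k) :
    ((X + X ^ 2) * (1 + C α * X ^ 2 + C β * X ^ 4)) * (X * (1 + C γ * X ^ 2 + C δ * X ^ 4)) =
      C 1 * X ^ 2 + C 1 * X ^ 3 + C (α + γ) * X ^ 4 + C (α + γ) * X ^ 5
      + C (α * γ + β + δ) * X ^ 6 + C (α * γ + β + δ) * X ^ 7
      + C (α * δ + β * γ) * X ^ 8 + C (α * δ + β * γ) * X ^ 9
      + C (β * δ) * X ^ 10 + C (β * δ) * X ^ 11 := by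
  simp only [C_add, C_mul, C_1]
  ring

/-- the one-variable contradiction -/
lemma final_contra {A : k →+ k} (h1 : A 1 = 1) (α β γ δ : k)
    (hαγ : A (α + γ) = 0) (hαδ : A (α * δ + β * γ) = 0) (e0 e1 : k[X])
    (he0 : e0 + half A e0 = 0)
    (he1 : e1 + half A e1 =
      ((X + X ^ 2) * (1 + C α * X ^ 2 + C β * X ^ 4)) * (X * (1 + C γ * X ^ 2 + C δ * X ^ 4)))
    (hdvd : X ^ 2 ∣ e1 - e0) : False := by
  rw [expand_R] at he1
  have hc : ∀ n, e1.coeff n + A (e1.coeff (2 * n)) = coeff (C 1 * X ^ 2 + C 1 * X ^ 3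
      + C (α + γ) * X ^ 4 + C (α + γ) * X ^ 5
      + C (α * γ + β + δ) * X ^ 6 + C (α * γ + β + δ) * X ^ 7
      + C (α * δ + β * γ) * X ^ 8 + C (α * δ + β * γ) * X ^ 9
      + C (β * δ) * X ^ 10 + C (β * δ) * X ^ 11) n := fun n => by
    rw [← he1, coeff_add, half_coeff]
  simp only [coeff_add, coeff_C_mul_X_pow] at hc
  have hc16 : ∀ m, 4 ≤ m → e1.coeff (2 ^ m) + A (e1.coeff (2 ^ (m + 1))) = 0 := by
    intro m hm
    have hlarge : 16 ≤ 2 ^ m := by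
      calc 16 = 2 ^ 4 := by norm_num
        _ ≤ 2 ^ m := Nat.pow_le_pow_right (by norm_num) hm
    rw [pow_succ, mul_comm (2 ^ m) 2, hc]
    rw [if_neg (by omega), if_neg (by omega), if_neg (by omega), if_neg (by omega),
      if_neg (by omega), if_neg (by omega), if_neg (by omega), if_neg (by omega),
      if_neg (by omega), if_neg (by omega)]
    simp
  have h16 : e1.coeff 16 = 0 := by simpa using coeff_rec_zero e1 4 hc16
  have h8 := hc 8
  have h4 := hc 4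
  have h2' := hc 2
  have h1' := hc 1
  norm_num at h8 h4 h2' h1'
  rw [h16, map_zero, add_zero] at h8
  rw [h8, hαδ, add_zero] at h4
  rw [h4, hαγ, add_zero] at h2'
  rw [h2', h1] at h1'
  have hc0 : ∀ m, 0 ≤ m → e0.coeff (2 ^ m) + A (e0.coeff (2 ^ (m + 1))) = 0 := by
    intro m _
    have := congrArg (fun p => coeff p (2 ^ m)) he0
    simp only [coeff_add, half_coeff, coeff_zero] at this
    rwa [← pow_succ'] at this
  have h01 : e0.coeff 1 = 0 := by simpa using coeff_rec_zero e0 0 hc0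
  have hd : (e1 - e0).coeff 1 = 0 := X_pow_dvd_iff.mp hdvd 1 (by norm_num)
  rw [coeff_sub, h01, sub_zero] at hd
  rw [hd, zero_add] at h1'
  exact one_ne_zero h1'

/-- **Non-liftability.**  The matrix `(a1 b1; c1 d1)` over `k[s]`, which is trivial modulo
`s²`, is not the restriction to `y = x²` of a matrix in `SL_2(k[x,y])` which is trivial on
`y = 0`. -/
theorem no_lift {A : k →+ k} (hA : ∀ r f, A (r ^ 2 * f) = r * A f) (v w t u : k)
    (h1 : A 1 = 1) (hv : A v = 0) (hw : A w = 0) (hvw : A (v * w) = 0)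
    (htv : t * v = 1) (huw : u * w = 1)
    (a b c d : k[X][X]) (hdet : a * d + b * c = 1)
    (h0a : rho 0 a = 1) (h0b : rho 0 b = 0)
    (ga gb gc gd : k[X])
    (hga : ga = 1 + (1 + C w) * X ^ 4) (hgb : gb = (1 + C w) * X ^ 2 * (1 + X) ^ 3)
    (hgc : gc = (1 + C u) * X ^ 2 * (1 + X)) (hgd : gd = 1 + (1 + C u) * X ^ 4)
    (h1a : rho (X ^ 2) a = 1 + (1 + C v) * (gb * gc))
    (h1b : rho (X ^ 2) b = (1 + C v) * (ga * gb))
    (h1c : rho (X ^ 2) c = (1 + C t) * (gc * gd))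
    (h1d : rho (X ^ 2) d = 1 + (1 + C t) * (gb * gc)) : False := by
  have h2 : (2 : k[X]) = 0 := CharTwo.two_eq_zero
  have h2k : (2 : k) = 0 := CharTwo.two_eq_zero
  have hCuw : C u * C w = (1 : k[X]) := by rw [← C_mul, huw, C_1]
  -- values of A
  have hAt : A t = 0 := by
    have : t = t ^ 2 * v := by linear_combination (-t) * htv
    rw [this, hA, hv, mul_zero]
  have hAu : A u = 0 := by
    have : u = u ^ 2 * w := by linear_combination (-u) * huw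
    rw [this, hA, hw, mul_zero]
  have hAtu : A (t * u) = 0 := by
    have : t * u = (t * u) ^ 2 * (v * w) := by
      linear_combination (-(t * u)) * htv + (-(t ^ 2 * u * v)) * huw
    rw [this, hA, hvw, mul_zero]
  have hAvu : A (v * u) = 0 := by
    have : v * u = u ^ 2 * (v * w) := by linear_combination (-(v * u)) * huw
    rw [this, hA, hvw, mul_zero]
  have hAtw : A (t * w) = 0 := by
    have : t * w = t ^ 2 * (v * w) := by linear_combination (-(t * w)) * htv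
    rw [this, hA, hvw, mul_zero]
  have hbc : gb * gc = (C u + C w) * (X * (1 + X)) ^ 4 := by
    rw [hgb, hgc]
    linear_combination (X ^ 4 * (1 + X) ^ 4) * hCuw + (X ^ 4 * (1 + X) ^ 4) * h2
  obtain ⟨e0, e1, he0, he1, hdvd⟩ := obstruction hA a b c d hdet (by
    rintro rfl
    rw [map_zero] at h0a
    exact zero_ne_one h0a)
  rw [h0a, h0b, mul_zero, map_zero, zero_mul] at he0
  have hab : rho (X ^ 2) a * rho (X ^ 2) b =
      (1 + C v) * (1 + (1 + C w) * X ^ 4) * (1 + C w) * ((X * (1 + X)) ^ 2 * (1 + X))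
      * (1 + (1 + C v) * (C u + C w) * (X * (1 + X)) ^ 4) := by
    rw [h1a, h1b, hbc, hga, hgb]; ring
  have hcd : rho (X ^ 2) c * rho (X ^ 2) d =
      (1 + C t) * (1 + (1 + C u) * X ^ 4) * (1 + C u) * (X ^ 2 * (1 + X))
      * (1 + (1 + C t) * (C w + C u) * (X * (1 + X)) ^ 4) := by
    rw [h1c, h1d, hbc, hgc, hgd]; ring
  rw [hab, half_ident hA v w u h1 hv hw hvw huw, hcd,
    half_ident hA t u w h1 hAt hAu hAtu (by rw [mul_comm]; exact huw)] at he1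
  have e1' : X * (1 + X) * (1 + (1 + C w) * X ^ 2 + (1 + C v) * (1 + C w) * (X * (1 + X)) ^ 2)
      = (X + X ^ 2) * (1 + C (v * (1 + w)) * X ^ 2 + C ((1 + v) * (1 + w)) * X ^ 4) := by
    simp only [C_add, C_mul, C_1]
    linear_combination ((X + X ^ 2) * ((1 + C w) * X ^ 2 + (1 + C v) * (1 + C w) * X ^ 3)) * h2
  have e2' : X * (1 + (1 + C u) * X ^ 2 + (1 + C t) * (1 + C u) * (X * (1 + X)) ^ 2)
      = X * (1 + C (t * (1 + u)) * X ^ 2 + C ((1 + t) * (1 + u)) * X ^ 4) := by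
    simp only [C_add, C_mul, C_1]
    linear_combination (X * ((1 + C u) * X ^ 2 + (1 + C t) * (1 + C u) * X ^ 3)) * h2
  rw [e1', e2'] at he1
  refine final_contra h1 _ _ _ _ ?_ ?_ e0 e1 he0 he1 hdvd
  · have : v * (1 + w) + t * (1 + u) = v + v * w + t + t * u := by ring
    rw [this, map_add, map_add, map_add, hv, hvw, hAt, hAtu]; simp
  · have : v * (1 + w) * ((1 + t) * (1 + u)) + (1 + v) * (1 + w) * (t * (1 + u))
        = v * u + t * u + v * w + t * w := by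
      linear_combination (0 : k) * htv + (2 * v * t + v + t) * huw + (v * t * (1 + u + w) + v * t + v + t + v * t * 0) * h2k
    rw [this, map_add, map_add, map_add, hAvu, hAtu, hvw, hAtw]; simp

end Pool.Agent.LamCex
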