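import Mathlib
import Pool.Agent.MP_ed7674_ag.NoLift
import Pool.Agent.MP_ed7674_ag.Modules

set_option autoImplicit false

/-!
# The counterexample ring and the stably free module
-/

namespace Pool.Agent.LamCex

open Polynomial

variable (k : Type) [Field k]

/-- `A = {f ∈ k[x,y] : f(s,0) = f(s,s²) = constant}`. -/
noncomputable def Acex : Subring k[X][X] :=
  ((C : k →+* k[X]).prod (C : k →+* k[X])).range.comap ((rho 0).prod (rho (X ^ 2)))

variable {k}

lemma mem_Acex (f : k[X][X]) :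
    f ∈ Acex k ↔ ∃ c : k, rho 0 f = C c ∧ rho (X ^ 2) f = C c := by
  rw [Acex, Subring.mem_comap, RingHom.mem_range]
  constructor
  · rintro ⟨c, hc⟩
    rw [RingHom.prod_apply, RingHom.prod_apply, Prod.mk.injEq] at hc
    exact ⟨c, hc.1.symm, hc.2.symm⟩
  · rintro ⟨c, h1, h2⟩
    exact ⟨c, by rw [RingHom.prod_apply, RingHom.prod_apply, h1, h2]⟩

/-- constants in `A` -/
noncomputable def kap : k →+* Acex k where
  toFun c := ⟨C (C c), (mem_Acex _).mpr ⟨c, by simp, by simp⟩⟩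
  map_one' := by ext1; simp
  map_mul' a b := by ext1; simp
  map_zero' := by ext1; simp
  map_add' a b := by ext1; simp

lemma kap_val (c : k) : ((kap c : Acex k) : k[X][X]) = C (C c) := rfl

section char2
variable [CharP k 2]

/-- multiples of `y (y + x²)` lie in `A` -/
noncomputable def sig (b : k[X][X]) : Acex k :=
  ⟨C X * (C X + X ^ 2) * b, (mem_Acex _).mpr ⟨0, by simp, by
    simp only [map_mul, map_add, map_pow, rho_CX, rho_X, CharTwo.add_self_eq_zero]
    simp⟩⟩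

lemma sig_val (b : k[X][X]) : ((sig b : Acex k) : k[X][X]) = C X * (C X + X ^ 2) * b := rfl

lemma detE {R : Type*} [CommRing R] (h2 : (2 : R) = 0) (v t f1 g1 f2 g2 z : R)
    (htv : t * v = 1) (hrel : f1 * g1 + f2 * g2 = 1 + z) :
    Matrix.det !![v + (v + 1) * f1 * g1 * (1 + (1 + t) * z), (v + 1) * g1 * f2 * (1 + (1 + t) * z),
        (v + 1) ^ 2 * g1 * z;
      (1 + t) * f1 * g2 * (1 + (1 + t) * z), 1 + (1 + t) * f2 * g2 * (1 + (1 + t) * z),
        (v + 1) * (1 + t) * g2 * z;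
      (1 + t) * t * z * f1, (1 + t) * t * z * f2, 1 + (1 + t) * z] = 1 := by
  rw [Matrix.det_fin_three]
  simp only [Matrix.cons_val', Matrix.cons_val_zero, Matrix.cons_val_one, Matrix.of_apply,
    Matrix.cons_val, Matrix.cons_val_fin_one]
  linear_combination (v + 2 * v * z + v * z ^ 2 + v * t + 4 * v * t * z + 2 * v * t * z ^ 2
    + 2 * v * t ^ 2 * z + v * t ^ 2 * z ^ 2 + (-1) * v ^ 2 * t * z ^ 2
    + (-2) * v ^ 2 * t ^ 2 * z ^ 2 + (-1) * v ^ 2 * t ^ 3 * z ^ 2) * hrel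
    + (1 + 6 * z + 4 * z ^ 2 + (-1) * f1 * g1 + (-2) * f1 * g1 * z + (-1) * f1 * g1 * z ^ 2
    + 2 * t * z + 2 * t * z ^ 2 + (-2) * t * f1 * g1 * z + (-1) * t * f1 * g1 * z ^ 2
    + (-1) * v * z ^ 2 + (-1) * v * z ^ 3 + (-2) * v * t * z ^ 2 + (-2) * v * t * z ^ 3
    + v * t * f1 * g1 * z ^ 2 + (-1) * v * t ^ 2 * z ^ 2 + (-1) * v * t ^ 2 * z ^ 3
    + v * t ^ 2 * f1 * g1 * z ^ 2) * htv
    + (3 * z + 2 * z ^ 2 + t * z + t * z ^ 2 + v + 2 * v * z + v * z ^ 2) * h2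

/-- unimodularity of the row -/
lemma unimod {R : Type*} [CommRing R] (h2 : (2 : R) = 0) (v t z F1 G1 F2 G2 : R)
    (htv : t * v = 1) (hN : F1 * G1 + F2 * G2 = z ^ 2 * (1 + z)) :
    (1 + t) * t * F1 * ((1 + v) ^ 2 * G1) + (1 + t) * t * F2 * ((1 + v) ^ 2 * G2)
      + (1 + (1 + t) * z) * (1 + (1 + t) * z + (1 + v) * (1 + t) * z ^ 2) = 1 := by
  linear_combination ((1 + t) * t * (1 + v) ^ 2) * hN
    + ((1 + t) * z ^ 2 * (2 + v) + (1 + t) * z ^ 3 * (3 + v)) * htv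
    + ((1 + t) * z + z ^ 2 * (1 + t) * (t + v + 2) + z ^ 3 * (1 + t) * (t + v + 2)) * h2

/-- Matrices in `GL_2(k[x,y])` with prescribed restrictions do not exist. -/
lemma core {F : k →+ k} (hF : ∀ r f, F (r ^ 2 * f) = r * F f) (v w t u : k)
    (h1 : F 1 = 1) (hv : F v = 0) (hw : F w = 0) (hvw : F (v * w) = 0)
    (htv : t * v = 1) (huw : u * w = 1)
    (ga gb gc gd : k[X])
    (hga : ga = 1 + (1 + C w) * X ^ 4) (hgb : gb = (1 + C w) * X ^ 2 * (1 + X) ^ 3)
    (hgc : gc = (1 + C u) * X ^ 2 * (1 + X)) (hgd : gd = 1 + (1 + C u) * X ^ 4)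
    (b00 b01 b10 b11 : k[X][X]) (c00 c01 c10 c11 : k)
    (hunit : IsUnit (b00 * b11 - b01 * b10))
    (h000 : rho 0 b00 = C c00) (h001 : rho 0 b01 = C c01)
    (h010 : rho 0 b10 = C c10) (h011 : rho 0 b11 = C c11)
    (h100 : rho (X ^ 2) b00 = (1 + (1 + C v) * (gb * gc)) * C c00
      + (1 + C v) * (ga * gb) * C c10)
    (h101 : rho (X ^ 2) b01 = (1 + (1 + C v) * (gb * gc)) * C c01
      + (1 + C v) * (ga * gb) * C c11)
    (h110 : rho (X ^ 2) b10 = (1 + C t) * (gc * gd) * C c00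
      + (1 + (1 + C t) * (gb * gc)) * C c10)
    (h111 : rho (X ^ 2) b11 = (1 + C t) * (gc * gd) * C c01
      + (1 + (1 + C t) * (gb * gc)) * C c11) : False := by
  have h2 : (2 : k[X]) = 0 := CharTwo.two_eq_zero
  have h2B : (2 : k[X][X]) = 0 := CharTwo.two_eq_zero
  obtain ⟨u0', hu0', hu0e⟩ := Polynomial.isUnit_iff.mp hunit
  obtain ⟨u0, hu0, rfl⟩ := Polynomial.isUnit_iff.mp hu0'
  have hu : u0 ≠ 0 := hu0.ne_zero
  have hdetc : u0 = c00 * c11 - c01 * c10 := by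
    have := congrArg (rho 0) hu0e
    rw [rho_CC, map_sub, map_mul, map_mul, h000, h001, h010, h011, ← C_mul, ← C_mul, ← C_sub] at this
    exact C_injective this
  have hui : C u0⁻¹ * C u0 = (1 : k[X]) := by rw [← C_mul, inv_mul_cancel₀ hu, C_1]
  have huiB : C (C u0⁻¹) * C (C u0) = (1 : k[X][X]) := by rw [← C_mul, hui, C_1]
  have hd1 : C c00 * C c11 - C c01 * C c10 = (C u0 : k[X]) := by
    rw [hdetc, C_sub, C_mul, C_mul]
  have hd1B : C (C c00) * C (C c11) - C (C c01) * C (C c10) = (C (C u0) : k[X][X]) := by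
    rw [← hd1, C_sub, C_mul, C_mul]
  refine no_lift hF v w t u h1 hv hw hvw htv huw
    (C (C u0⁻¹) * (b00 * C (C c11) - b01 * C (C c10)))
    (C (C u0⁻¹) * (b01 * C (C c00) - b00 * C (C c01)))
    (C (C u0⁻¹) * (b10 * C (C c11) - b11 * C (C c10)))
    (C (C u0⁻¹) * (b11 * C (C c00) - b10 * C (C c01)))
    ?_ ?_ ?_ ga gb gc gd hga hgb hgc hgd ?_ ?_ ?_ ?_
  · linear_combination (-(C (C u0⁻¹)) ^ 2 * (C (C c00) * C (C c11) - C (C c01) * C (C c10))) * hu0e
      + (C (C u0⁻¹) ^ 2 * C (C u0)) * hd1B + (C (C u0⁻¹) * C (C u0) + 1) * huiB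
      + (C (C u0⁻¹) ^ 2 * (b01 * C (C c00) - b00 * C (C c01)) *
          (b10 * C (C c11) - b11 * C (C c10))) * h2B
  · rw [map_mul, map_sub, map_mul, map_mul, rho_CC, rho_CC, rho_CC, h000, h001]
    linear_combination (C u0⁻¹) * hd1 + hui
  · rw [map_mul, map_sub, map_mul, map_mul, rho_CC, rho_CC, rho_CC, h000, h001]
    ring
  · rw [map_mul, map_sub, map_mul, map_mul, rho_CC, rho_CC, rho_CC, h100, h101]
    linear_combination (C u0⁻¹ * (1 + (1 + C v) * (gb * gc))) * hd1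
      + (1 + (1 + C v) * (gb * gc)) * hui
  · rw [map_mul, map_sub, map_mul, map_mul, rho_CC, rho_CC, rho_CC, h100, h101]
    linear_combination (C u0⁻¹ * ((1 + C v) * (ga * gb))) * hd1
      + ((1 + C v) * (ga * gb)) * hui
  · rw [map_mul, map_sub, map_mul, map_mul, rho_CC, rho_CC, rho_CC, h110, h111]
    linear_combination (C u0⁻¹ * ((1 + C t) * (gc * gd))) * hd1
      + ((1 + C t) * (gc * gd)) * hui
  · rw [map_mul, map_sub, map_mul, map_mul, rho_CC, rho_CC, rho_CC, h110, h111]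
    linear_combination (C u0⁻¹ * (1 + (1 + C t) * (gb * gc))) * hd1
      + (1 + (1 + C t) * (gb * gc)) * hui

/-- first row entry `ζ f₁` -/
noncomputable def rF1 (u c0 : k) : PR (Acex k) :=
  MvPolynomial.C (sig (C (C c0))) * MvPolynomial.X 0 ^ 4
    + MvPolynomial.C (sig (C (C c0) * (1 + C (C u)) * X ^ 2 * C X)) * MvPolynomial.X 0 ^ 8

/-- second row entry `ζ f₂` -/
noncomputable def rF2 (w c0 : k) : PR (Acex k) :=
  MvPolynomial.C (sig (C (C c0) * (1 + C (C w)) * C X)) * MvPolynomial.X 0 ^ 6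
    + MvPolynomial.C (sig (C (C c0) * (1 + C (C w)) * C X * X)) * MvPolynomial.X 0 ^ 7
    + MvPolynomial.C (sig (C (C c0) * (1 + C (C w)) * C X * X ^ 2)) * MvPolynomial.X 0 ^ 8
    + MvPolynomial.C (sig (C (C c0) * (1 + C (C w)) * C X * X ^ 3)) * MvPolynomial.X 0 ^ 9

/-- second column entry `ζ f₂*` -/
noncomputable def rG2 (u c0 : k) : PR (Acex k) :=
  MvPolynomial.C (sig (C (C c0) * (1 + C (C u)) * C X)) * MvPolynomial.X 0 ^ 6
    + MvPolynomial.C (sig (C (C c0) * (1 + C (C u)) * C X * X)) * MvPolynomial.X 0 ^ 7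

/-- `ζ` -/
noncomputable def rZ (c0 : k) : PR (Acex k) :=
  MvPolynomial.C (sig (C (C c0))) * MvPolynomial.X 0 ^ 4

/-- constants -/
noncomputable def kk (c : k) : PR (Acex k) := MvPolynomial.C (kap c)

/-- the unimodular row -/
noncomputable def theRow (w t u : k) : Fin 3 → PR (Acex k) :=
  ![(1 + kk t) * kk t * rF1 u (u + w), (1 + kk t) * kk t * rF2 w (u + w),
    1 + (1 + kk t) * rZ (u + w)]

/-- the column -/
noncomputable def theCol (v w t u : k) : Fin 3 → PR (Acex k) :=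
  ![(1 + kk v) ^ 2 * rF1 w (u + w), (1 + kk v) ^ 2 * rG2 u (u + w),
    1 + (1 + kk t) * rZ (u + w) + (1 + kk v) * (1 + kk t) * rZ (u + w) ^ 2]

lemma two_PR : (2 : PR (Acex k)) = 0 := by
  have h : (2 : k) = 0 := CharTwo.two_eq_zero
  have h2 := map_ofNat ((MvPolynomial.C : Acex k →+* PR (Acex k)).comp kap) 2
  have h3 : ((MvPolynomial.C : Acex k →+* PR (Acex k)).comp kap) (2 : k) = 0 := by
    rw [h, map_zero]
  exact h2.symm.trans h3

lemma norm_rel (w u : k) (huw : u * w = 1) :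
    rF1 u (u + w) * rF1 w (u + w) + rF2 w (u + w) * rG2 u (u + w)
      = rZ (u + w) ^ 2 * (1 + rZ (u + w)) := by
  have hinj : Function.Injective (MvPolynomial.map (σ := Fin 1) (Acex k).subtype) :=
    MvPolynomial.map_injective _ Subtype.val_injective
  apply hinj
  have h2 : (2 : MvPolynomial (Fin 1) k[X][X]) = 0 := CharTwo.two_eq_zero
  have hu : (MvPolynomial.C (C (C u)) * MvPolynomial.C (C (C w)) : MvPolynomial (Fin 1) k[X][X])
      = 1 := by
    rw [← MvPolynomial.C_mul, ← C_mul, ← C_mul, huw, C_1, C_1, MvPolynomial.C_1]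
  simp only [rF1, rF2, rG2, rZ, map_add, map_mul, map_pow, MvPolynomial.map_C,
    MvPolynomial.map_X, Subring.subtype_apply, sig_val, map_one]
  generalize hx : (MvPolynomial.C (X : k[X][X]) : MvPolynomial (Fin 1) k[X][X]) = x
  generalize hy : (MvPolynomial.C (C X : k[X][X]) : MvPolynomial (Fin 1) k[X][X]) = y
  generalize hU : (MvPolynomial.C (C (C u)) : MvPolynomial (Fin 1) k[X][X]) = U at *
  generalize hW : (MvPolynomial.C (C (C w)) : MvPolynomial (Fin 1) k[X][X]) = W at *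
  generalize hT : (MvPolynomial.X 0 : MvPolynomial (Fin 1) k[X][X]) = T
  linear_combination ((y * (y + x ^ 2) * (U + W) * T ^ 4) ^ 2) * (
    (T ^ 4 * y ^ 2) * hu + (x ^ 2 * y * T ^ 4 + (1 + U) * (1 + W) * x ^ 4 * y ^ 2 * T ^ 8
      + (1 + U) * (1 + W) * T ^ 4 * y ^ 2 * (x * T + x ^ 2 * T ^ 2 + x ^ 3 * T ^ 3)
      + T ^ 4 * y ^ 2) * h2)

lemma row_col (v w t u : k) (htv : t * v = 1) (huw : u * w = 1) :
    rowMap (theRow w t u) (theCol v w t u) = 1 := by
  have htv' : kk t * kk v = (1 : PR (Acex k)) := by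
    rw [kk, kk, ← MvPolynomial.C_mul, ← map_mul, htv, map_one, MvPolynomial.C_1]
  rw [rowMap_apply]
  exact unimod two_PR (kk v) (kk t) (rZ (u + w)) (rF1 u (u + w)) (rF1 w (u + w))
    (rF2 w (u + w)) (rG2 u (u + w)) htv' (norm_rel w u huw)

omit [CharP k 2] in
lemma ev_kk (a : Acex k) (c : k) : ev a (kk c) = kap c := ev_C a _

lemma ev0_row (w t u : k) : (fun i => ev (0 : Acex k) (theRow w t u i)) = ![0, 0, 1] := by
  funext i
  fin_cases i
  · simp [theRow, rF1, ev]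
  · simp [theRow, rF2, ev]
  · simp [theRow, rZ, ev]

lemma ev1_row0 (w t u : k) : ((ev (1 : Acex k) (theRow w t u 0) : Acex k) : k[X][X]) =
    (1 + C (C t)) * C (C t) * (C X * (C X + X ^ 2) * C (C (u + w))) *
      (1 + (1 + C (C u)) * X ^ 2 * C X) := by
  simp only [theRow, rF1, ev, kk, Matrix.cons_val_zero, map_add, map_mul, map_pow,
    MvPolynomial.eval_C, MvPolynomial.eval_X, one_pow, mul_one, map_one, Subring.coe_add,
    Subring.coe_mul, sig_val, kap_val, Subring.coe_one]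
  ring

lemma ev1_row1 (w t u : k) : ((ev (1 : Acex k) (theRow w t u 1) : Acex k) : k[X][X]) =
    (1 + C (C t)) * C (C t) * (C X * (C X + X ^ 2) * C (C (u + w))) *
      ((1 + C (C w)) * (1 + X) ^ 3 * C X) := by
  have h2 : (2 : k[X][X]) = 0 := CharTwo.two_eq_zero
  change ((ev (1 : Acex k) ((1 + kk t) * kk t * rF2 w (u + w)) : Acex k) : k[X][X]) = _
  simp only [rF2, ev, kk, map_add, map_mul, map_pow,
    MvPolynomial.eval_C, MvPolynomial.eval_X, one_pow, mul_one, map_one, Subring.coe_add,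
    Subring.coe_mul, sig_val, kap_val, Subring.coe_one]
  linear_combination (-((1 + C (C t)) * C (C t) * (C X * (C X + X ^ 2) * (C (C u) + C (C w))) *
      ((1 + C (C w)) * (X + X ^ 2) * C X))) * h2

lemma ev1_row2 (w t u : k) : ((ev (1 : Acex k) (theRow w t u 2) : Acex k) : k[X][X]) =
    1 + (1 + C (C t)) * (C X * (C X + X ^ 2) * C (C (u + w))) := by
  simp only [theRow, rZ, ev, kk, Matrix.cons_val, map_add, map_mul, map_pow,
    MvPolynomial.eval_C, MvPolynomial.eval_X, one_pow, mul_one, map_one, Subring.coe_add,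
    Subring.coe_mul, sig_val, kap_val, Subring.coe_one]

end char2

end Pool.Agent.LamCex
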