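import Mathlib

set_option autoImplicit false

/-!
# A field of characteristic two with a square-root-linear functional

`k = F_2(v,w)`, and `A : k → k` is additive with `A (r^2 f) = r A f`, `A 1 = 1`,
`A v = A w = A (v w) = 0`.
-/

namespace Pool.Agent.LamCex

open MvPolynomial

/-- The polynomial ring `F_2[v,w]`. -/
abbrev R2 : Type := MvPolynomial (Fin 2) (ZMod 2)

lemma two_R2 (a : R2) : a + a = 0 := CharTwo.add_self_eq_zero a

lemma pderiv_sq (i : Fin 2) (a : R2) : pderiv i (a ^ 2) = 0 := by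
  rw [sq, Derivation.leibniz]
  simp only [smul_eq_mul]
  exact two_R2 _

lemma indep_poly (a b c d : R2)
    (h : a ^ 2 + b ^ 2 * X 0 + c ^ 2 * X 1 + d ^ 2 * (X 0 * X 1) = 0) :
    a = 0 ∧ b = 0 ∧ c = 0 ∧ d = 0 := by
  have h01 : pderiv (0 : Fin 2) (X 1 : R2) = 0 := by
    rw [pderiv_X_of_ne]; decide
  have h10 : pderiv (1 : Fin 2) (X 0 : R2) = 0 := by
    rw [pderiv_X_of_ne]; decide
  have e0 := congrArg (pderiv (0 : Fin 2)) h
  have e1 := congrArg (pderiv (1 : Fin 2)) h
  simp only [map_add, Derivation.leibniz, pderiv_sq, pderiv_X_self, h01, h10, smul_eq_mul,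
    mul_zero, add_zero, zero_add, mul_one, map_zero] at e0 e1
  have e01 := congrArg (pderiv (1 : Fin 2)) e0
  simp only [map_add, Derivation.leibniz, pderiv_sq, pderiv_X_self, smul_eq_mul,
    mul_zero, add_zero, zero_add, mul_one, map_zero] at e01
  have hd : d = 0 := by simpa using e01
  subst hd
  have hb : b = 0 := by simpa using e0
  have hc : c = 0 := by simpa using e1
  subst hb hc
  have ha : a = 0 := by simpa using h
  exact ⟨ha, rfl, rfl, rfl⟩

/-- The field `F_2(v,w)`. -/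
abbrev K2 : Type := FractionRing R2

/-- The generator `v` of `K2`. -/
noncomputable def gv : K2 := algebraMap R2 K2 (X 0)

/-- The generator `w` of `K2`. -/
noncomputable def gw : K2 := algebraMap R2 K2 (X 1)

lemma indep_field (a b c d : K2)
    (h : a ^ 2 + b ^ 2 * gv + c ^ 2 * gw + d ^ 2 * (gv * gw) = 0) :
    a = 0 ∧ b = 0 ∧ c = 0 ∧ d = 0 := by
  obtain ⟨a1, a2, ha2, rfl⟩ := IsFractionRing.div_surjective (A := R2) a
  obtain ⟨b1, b2, hb2, rfl⟩ := IsFractionRing.div_surjective (A := R2) b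
  obtain ⟨c1, c2, hc2, rfl⟩ := IsFractionRing.div_surjective (A := R2) c
  obtain ⟨d1, d2, hd2, rfl⟩ := IsFractionRing.div_surjective (A := R2) d
  have na : algebraMap R2 K2 a2 ≠ 0 := IsFractionRing.to_map_ne_zero_of_mem_nonZeroDivisors ha2
  have nb : algebraMap R2 K2 b2 ≠ 0 := IsFractionRing.to_map_ne_zero_of_mem_nonZeroDivisors hb2
  have nc : algebraMap R2 K2 c2 ≠ 0 := IsFractionRing.to_map_ne_zero_of_mem_nonZeroDivisors hc2
  have nd : algebraMap R2 K2 d2 ≠ 0 := IsFractionRing.to_map_ne_zero_of_mem_nonZeroDivisors hd2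
  have key : algebraMap R2 K2 ((a1 * (b2 * c2 * d2)) ^ 2 + (b1 * (a2 * c2 * d2)) ^ 2 * X 0
      + (c1 * (a2 * b2 * d2)) ^ 2 * X 1 + (d1 * (a2 * b2 * c2)) ^ 2 * (X 0 * X 1)) = 0 := by
    simp only [map_add, map_mul, map_pow]
    simp only [gv, gw] at h
    field_simp at h
    linear_combination h
  have key2 := (IsFractionRing.injective R2 K2) (key.trans (map_zero _).symm)
  obtain ⟨h1, h2, h3, h4⟩ := indep_poly _ _ _ _ key2
  have a20 : a2 ≠ 0 := nonZeroDivisors.ne_zero ha2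
  have b20 : b2 ≠ 0 := nonZeroDivisors.ne_zero hb2
  have c20 : c2 ≠ 0 := nonZeroDivisors.ne_zero hc2
  have d20 : d2 ≠ 0 := nonZeroDivisors.ne_zero hd2
  simp only [mul_eq_zero, a20, b20, c20, d20, or_false] at h1 h2 h3 h4
  subst h1 h2 h3 h4
  simp

/-- `K2` with scalars acting through squares. -/
def FK : Type := K2

noncomputable instance : AddCommGroup FK := inferInstanceAs (AddCommGroup K2)

noncomputable instance : Module K2 FK := Module.compHom K2 (frobenius K2 2)

lemma FK_smul (r : K2) (x : FK) : r • x = (show FK from (r ^ 2 * (show K2 from x) : K2)) := rfl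

theorem exists_field : ∃ (k : Type) (_ : Field k) (_ : CharP k 2) (v w : k) (A : k →+ k),
    (∀ r f, A (r ^ 2 * f) = r * A f) ∧ A 1 = 1 ∧ A v = 0 ∧ A w = 0 ∧ A (v * w) = 0 ∧
    v ≠ 0 ∧ w ≠ 0 := by
  have hli : LinearIndependent K2 (![(1 : K2), gv, gw, gv * gw] : Fin 4 → FK) := by
    rw [Fintype.linearIndependent_iff]
    intro g hg
    have hg' : (g 0) ^ 2 + (g 1) ^ 2 * gv + (g 2) ^ 2 * gw + (g 3) ^ 2 * (gv * gw) = (0 : K2) := by
      have : (g 0) ^ 2 * (1 : K2) + (g 1) ^ 2 * gv + (g 2) ^ 2 * gw + (g 3) ^ 2 * (gv * gw)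
          = (0 : K2) := by
        rw [Fin.sum_univ_four] at hg
        exact hg
      rwa [mul_one] at this
    obtain ⟨h0, h1, h2, h3⟩ := indep_field _ _ _ _ hg'
    intro i
    fin_cases i <;> assumption
  let f : Submodule.span K2 (Set.range (![(1 : K2), gv, gw, gv * gw] : Fin 4 → FK)) →ₗ[K2] K2 :=
    (Finsupp.linearCombination K2 (![1, 0, 0, 0] : Fin 4 → K2)).comp hli.repr
  obtain ⟨g, hg⟩ := LinearMap.exists_extend f
  have hval : ∀ i : Fin 4, g ((![(1 : K2), gv, gw, gv * gw] : Fin 4 → FK) i)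
      = (![1, 0, 0, 0] : Fin 4 → K2) i := by
    intro i
    have hm : (![(1 : K2), gv, gw, gv * gw] : Fin 4 → FK) i ∈
      Submodule.span K2 (Set.range (![(1 : K2), gv, gw, gv * gw] : Fin 4 → FK)) :=
      Submodule.subset_span ⟨i, rfl⟩
    have h1 : g ((![(1 : K2), gv, gw, gv * gw] : Fin 4 → FK) i) = f ⟨_, hm⟩ := by
      rw [← hg]; rfl
    rw [h1]
    simp only [f, LinearMap.comp_apply]
    rw [hli.repr_eq_single i ⟨_, hm⟩ rfl]
    simp
  refine ⟨K2, inferInstance, inferInstance, gv, gw, g.toAddMonoidHom, ?_, ?_, ?_, ?_, ?_, ?_, ?_⟩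
  · intro r x
    exact g.map_smul r x
  · exact hval 0
  · exact hval 1
  · exact hval 2
  · exact hval 3
  · intro h
    exact X_ne_zero (R := ZMod 2) (0 : Fin 2)
      ((IsFractionRing.injective R2 K2) (h.trans (map_zero _).symm))
  · intro h
    exact X_ne_zero (R := ZMod 2) (1 : Fin 2)
      ((IsFractionRing.injective R2 K2) (h.trans (map_zero _).symm))

end Pool.Agent.LamCex
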