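import Mathlib
import Pool.Agent.MP_ed7674_ag.Field
import Pool.Agent.MP_ed7674_ag.Cex

set_option autoImplicit false

/-!
# The module is not extended
-/

namespace Pool.Agent.LamCex

open Polynomial

/-- the kernel of the row `(0,0,1)` is free of rank two -/
noncomputable def kerStd (A : Type) [CommRing A] :
    (Fin 2 → A) ≃ₗ[A] LinearMap.ker (rowMap (![0, 0, 1] : Fin 3 → A)) where
  toFun y := ⟨![y 0, y 1, 0], by simp [LinearMap.mem_ker, rowMap_apply]⟩
  invFun x := ![x.1 0, x.1 1]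
  map_add' x y := by
    ext i; fin_cases i <;> simp
  map_smul' c x := by
    ext i; fin_cases i <;> simp
  left_inv y := by
    ext i; fin_cases i <;> simp
  right_inv x := by
    have h : rowMap (![0, 0, 1] : Fin 3 → A) x.1 = 0 := LinearMap.mem_ker.mp x.2
    rw [rowMap_apply] at h
    have h2 : x.1 2 = 0 := by simpa using h
    ext i; fin_cases i
    · simp
    · simp
    · simp [h2]

variable {k : Type} [Field k] [CharP k 2]

/-- The specialisation at `T = 1` is not free. -/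
theorem not_free {F : k →+ k} (hF : ∀ r f, F (r ^ 2 * f) = r * F f) (v w t u : k)
    (h1 : F 1 = 1) (hv : F v = 0) (hw : F w = 0) (hvw : F (v * w) = 0)
    (htv : t * v = 1) (huw : u * w = 1)
    (Φ : (Fin 2 → Acex k) ≃ₗ[Acex k]
      LinearMap.ker (rowMap (fun i => ev (1 : Acex k) (theRow w t u i)))) : False := by
  set A := Acex k with hA
  set r : Fin 3 → A := fun i => ev (1 : A) (theRow w t u i) with hr
  set c : Fin 3 → A := fun i => ev (1 : A) (theCol v w t u i) with hc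
  have hrc : rowMap r c = 1 := by
    have := congrArg (ev (1 : A)) (row_col v w t u htv huw)
    rw [rowMap_apply] at this ⊢
    simpa only [map_add, map_mul, map_one] using this
  -- the two basis vectors
  set p0 : Fin 3 → A := (Φ (Pi.single 0 1)).1 with hp0
  set p1 : Fin 3 → A := (Φ (Pi.single 1 1)).1 with hp1
  have hp0k : rowMap r p0 = 0 := LinearMap.mem_ker.mp (Φ (Pi.single 0 1)).2
  have hp1k : rowMap r p1 = 0 := LinearMap.mem_ker.mp (Φ (Pi.single 1 1)).2
  have hΦ : ∀ y : Fin 2 → A, (Φ y).1 = y 0 • p0 + y 1 • p1 := by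
    intro y
    have hy : y = y 0 • Pi.single 0 1 + y 1 • Pi.single 1 1 := by
      ext i; fin_cases i <;> simp
    conv_lhs => rw [hy]
    rw [map_add, map_smul, map_smul]
    rfl
  -- coordinates of the projections of the standard basis
  have hcoord : ∀ l : Fin 3, ∃ n0 n1 : A, ∀ i : Fin 3,
      p0 i * n0 + p1 i * n1 + c i * r l = if i = l then 1 else 0 := by
    intro l
    have hx : rowMap r (Pi.single l 1 - r l • c) = 0 := by
      rw [map_sub, map_smul, hrc, smul_eq_mul, mul_one, rowMap_apply]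
      fin_cases l <;> simp
    obtain ⟨y, hy⟩ := Φ.surjective ⟨_, LinearMap.mem_ker.mpr hx⟩
    refine ⟨y 0, y 1, fun i => ?_⟩
    have h2 := congrArg (fun z => z.1 i) hy
    simp only [hΦ y, Pi.add_apply, Pi.smul_apply, smul_eq_mul, Pi.sub_apply] at h2
    have h3 : (Pi.single l (1 : A) : Fin 3 → A) i = if i = l then 1 else 0 := by
      rw [Pi.single_apply]
    rw [h3] at h2
    linear_combination h2
  choose n0 n1 hn using hcoord
  let M : Matrix (Fin 3) (Fin 3) A := Matrix.of fun i j => ![p0 i, p1 i, c i] j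
  let N : Matrix (Fin 3) (Fin 3) A := Matrix.of fun j l => ![n0 l, n1 l, r l] j
  have hMN : M * N = 1 := by
    ext1 i l
    rw [Matrix.mul_apply, Fin.sum_univ_three, Matrix.one_apply]
    exact hn l i
  have hdetMN : M.det * N.det = 1 := by rw [← Matrix.det_mul, hMN, Matrix.det_one]
  let φ : A →+* k[X][X] := A.subtype
  have hunitM : IsUnit (φ M.det) := by
    refine IsUnit.of_mul_eq_one (φ N.det) ?_
    rw [← map_mul, hdetMN, map_one]
  have h2p : (2 : k[X]) = 0 := CharTwo.two_eq_zero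
  have h2B : (2 : k[X][X]) = 0 := CharTwo.two_eq_zero
  -- elements of `B = k[x,y]`
  obtain ⟨ζ, hζ⟩ : ∃ ζ : k[X][X], ζ = C X * (C X + X ^ 2) * C (C (u + w)) := ⟨_, rfl⟩
  obtain ⟨f1, hf1⟩ : ∃ f : k[X][X], f = 1 + (1 + C (C u)) * X ^ 2 * C X := ⟨_, rfl⟩
  obtain ⟨g1, hg1⟩ : ∃ f : k[X][X], f = 1 + (1 + C (C w)) * X ^ 2 * C X := ⟨_, rfl⟩
  obtain ⟨f2, hf2⟩ : ∃ f : k[X][X], f = (1 + C (C w)) * (1 + X) ^ 3 * C X := ⟨_, rfl⟩
  obtain ⟨g2, hg2⟩ : ∃ f : k[X][X], f = (1 + C (C u)) * (1 + X) * C X := ⟨_, rfl⟩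
  have htvB : C (C t) * C (C v) = (1 : k[X][X]) := by rw [← C_mul, ← C_mul, htv, C_1, C_1]
  have huwB : C (C u) * C (C w) = (1 : k[X][X]) := by rw [← C_mul, ← C_mul, huw, C_1, C_1]
  have hrel : f1 * g1 + f2 * g2 = 1 + ζ := by
    rw [hζ, hf1, hg1, hf2, hg2, C_add, C_add]
    linear_combination (C X ^ 2) * huwB + (X ^ 2 * C X + (1 + C (C u)) * (1 + C (C w)) * C X ^ 2 *
      (X ^ 4 + 2 * X + 3 * X ^ 2 + 2 * X ^ 3) + C X ^ 2) * h2B
  -- the matrix `E`
  obtain ⟨V, hV⟩ : ∃ V : k[X][X], V = C (C v) := ⟨_, rfl⟩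
  obtain ⟨T, hT⟩ : ∃ T : k[X][X], T = C (C t) := ⟨_, rfl⟩
  rw [← hV, ← hT] at htvB
  have hdetE := detE h2B V T f1 g1 f2 g2 ζ htvB hrel
  set E : Matrix (Fin 3) (Fin 3) k[X][X] :=
    !![V + (V + 1) * f1 * g1 * (1 + (1 + T) * ζ), (V + 1) * g1 * f2 * (1 + (1 + T) * ζ),
        (V + 1) ^ 2 * g1 * ζ;
      (1 + T) * f1 * g2 * (1 + (1 + T) * ζ), 1 + (1 + T) * f2 * g2 * (1 + (1 + T) * ζ),
        (V + 1) * (1 + T) * g2 * ζ;
      (1 + T) * T * ζ * f1, (1 + T) * T * ζ * f2, 1 + (1 + T) * ζ] with hE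
  have hr0 : φ (r 0) = E 2 0 := by
    change ((ev (1 : Acex k) (theRow w t u 0) : Acex k) : k[X][X]) = (1 + T) * T * ζ * f1
    rw [ev1_row0, hT, hζ, hf1]
  have hr1 : φ (r 1) = E 2 1 := by
    change ((ev (1 : Acex k) (theRow w t u 1) : Acex k) : k[X][X]) = (1 + T) * T * ζ * f2
    rw [ev1_row1, hT, hζ, hf2]
  have hr2 : φ (r 2) = E 2 2 := by
    change ((ev (1 : Acex k) (theRow w t u 2) : Acex k) : k[X][X]) = 1 + (1 + T) * ζ
    rw [ev1_row2, hT, hζ]
  have hrow : ∀ x : Fin 3 → A, E 2 0 * φ (x 0) + E 2 1 * φ (x 1) + E 2 2 * φ (x 2)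
      = φ (rowMap r x) := by
    intro x
    rw [← hr0, ← hr1, ← hr2, rowMap_apply]
    simp only [map_add, map_mul]
  -- the product `E * M`
  obtain ⟨b, hb⟩ : ∃ b : Fin 3 → Fin 3 → k[X][X], ∀ i j, b i j =
      E i 0 * φ (M 0 j) + E i 1 * φ (M 1 j) + E i 2 * φ (M 2 j) := ⟨_, fun i j => rfl⟩
  have hprod : (E * φ.mapMatrix M).det = φ M.det := by
    rw [Matrix.det_mul, hdetE, one_mul, ← RingHom.map_det]
  have hb20 : b 2 0 = 0 := by
    rw [hb]
    have := hrow p0
    rw [hp0k, map_zero] at this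
    exact this
  have hb21 : b 2 1 = 0 := by
    rw [hb]
    have := hrow p1
    rw [hp1k, map_zero] at this
    exact this
  have hb22 : b 2 2 = 1 := by
    rw [hb]
    have := hrow c
    rw [hrc, map_one] at this
    exact this
  have hdetb : b 0 0 * b 1 1 - b 0 1 * b 1 0 = φ M.det := by
    rw [← hprod, Matrix.det_fin_three]
    have hij : ∀ i j, (E * φ.mapMatrix M) i j = b i j := by
      intro i j
      rw [Matrix.mul_apply, Fin.sum_univ_three, hb]
      rfl
    simp only [hij, hb20, hb21, hb22]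
    ring
  -- boundary values
  choose d0 hd0 hd0' using fun i => (mem_Acex _).mp (p0 i).2
  choose d1 hd1 hd1' using fun i => (mem_Acex _).mp (p1 i).2
  obtain ⟨ga, hga⟩ : ∃ f : k[X], f = 1 + (1 + C w) * X ^ 4 := ⟨_, rfl⟩
  obtain ⟨gb, hgb⟩ : ∃ f : k[X], f = (1 + C w) * X ^ 2 * (1 + X) ^ 3 := ⟨_, rfl⟩
  obtain ⟨gc, hgc⟩ : ∃ f : k[X], f = (1 + C u) * X ^ 2 * (1 + X) := ⟨_, rfl⟩
  obtain ⟨gd, hgd⟩ : ∃ f : k[X], f = 1 + (1 + C u) * X ^ 4 := ⟨_, rfl⟩
  have z0 : rho 0 ζ = 0 := by rw [hζ]; simp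
  have f10 : rho 0 f1 = 1 := by rw [hf1]; simp
  have g10 : rho 0 g1 = 1 := by rw [hg1]; simp
  have f20 : rho 0 f2 = 0 := by rw [hf2]; simp
  have g20 : rho 0 g2 = 0 := by rw [hg2]; simp
  have z1 : rho (X ^ 2) ζ = 0 := by
    rw [hζ]; simp only [map_mul, map_add, map_pow, rho_CX, rho_X, CharTwo.add_self_eq_zero]; simp
  have f11 : rho (X ^ 2) f1 = gd := by
    rw [hf1, hgd]; simp only [map_mul, map_add, map_pow, rho_CX, rho_X, rho_CC, map_one]; ring
  have g11 : rho (X ^ 2) g1 = ga := by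
    rw [hg1, hga]; simp only [map_mul, map_add, map_pow, rho_CX, rho_X, rho_CC, map_one]; ring
  have f21 : rho (X ^ 2) f2 = gb := by
    rw [hf2, hgb]; simp only [map_mul, map_add, map_pow, rho_CX, rho_X, rho_CC, map_one]; ring
  have g21 : rho (X ^ 2) g2 = gc := by
    rw [hg2, hgc]; simp only [map_mul, map_add, rho_CX, rho_X, rho_CC, map_one]; ring
  have hgg : gd * ga + gb * gc = 1 := by
    have := congrArg (rho (X ^ 2)) hrel
    rwa [map_add, map_mul, map_mul, f11, g11, f21, g21, map_add, z1, map_one, add_zero] at this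
  have rV : ∀ p : k[X], rho p V = C v := fun p => by rw [hV, rho_CC]
  have rT : ∀ p : k[X], rho p T = C t := fun p => by rw [hT, rho_CC]
  have e00 : E 0 0 = V + (V + 1) * f1 * g1 * (1 + (1 + T) * ζ) := rfl
  have e01 : E 0 1 = (V + 1) * g1 * f2 * (1 + (1 + T) * ζ) := rfl
  have e02 : E 0 2 = (V + 1) ^ 2 * g1 * ζ := rfl
  have e10 : E 1 0 = (1 + T) * f1 * g2 * (1 + (1 + T) * ζ) := rfl
  have e11 : E 1 1 = 1 + (1 + T) * f2 * g2 * (1 + (1 + T) * ζ) := rfl
  have e12 : E 1 2 = (V + 1) * (1 + T) * g2 * ζ := rfl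
  have m00 : M 0 0 = p0 0 := rfl
  have m10 : M 1 0 = p0 1 := rfl
  have m20 : M 2 0 = p0 2 := rfl
  have m01 : M 0 1 = p1 0 := rfl
  have m11 : M 1 1 = p1 1 := rfl
  have m21 : M 2 1 = p1 2 := rfl
  have φv : ∀ a : A, φ a = (a : k[X][X]) := fun a => rfl
  refine core hF v w t u h1 hv hw hvw htv huw ga gb gc gd hga hgb hgc hgd
    (b 0 0) (b 0 1) (b 1 0) (b 1 1) (d0 0) (d1 0) (d0 1) (d1 1) (hdetb ▸ hunitM)
    ?_ ?_ ?_ ?_ ?_ ?_ ?_ ?_
  · rw [hb, e00, e01, e02, m00, m10, m20]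
    simp only [map_add, map_mul, map_pow, map_one, φv, hd0, z0, f10, g10, f20, rV, rT]
    linear_combination (C v * C (d0 0)) * h2p
  · rw [hb, e00, e01, e02, m01, m11, m21]
    simp only [map_add, map_mul, map_pow, map_one, φv, hd1, z0, f10, g10, f20, rV, rT]
    linear_combination (C v * C (d1 0)) * h2p
  · rw [hb, e10, e11, e12, m00, m10, m20]
    simp only [map_add, map_mul, map_one, φv, hd0, z0, f10, g20, f20, rV, rT]
    ring
  · rw [hb, e10, e11, e12, m01, m11, m21]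
    simp only [map_add, map_mul, map_one, φv, hd1, z0, f10, g20, f20, rV, rT]
    ring
  · rw [hb, e00, e01, e02, m00, m10, m20]
    simp only [map_add, map_mul, map_pow, map_one, φv, hd0', z1, f11, g11, f21, rV, rT]
    linear_combination ((C v + 1) * C (d0 0)) * hgg + (C v * C (d0 0) -
      (C v + 1) * (gb * gc) * C (d0 0)) * h2p
  · rw [hb, e00, e01, e02, m01, m11, m21]
    simp only [map_add, map_mul, map_pow, map_one, φv, hd1', z1, f11, g11, f21, rV, rT]
    linear_combination ((C v + 1) * C (d1 0)) * hgg + (C v * C (d1 0) -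
      (C v + 1) * (gb * gc) * C (d1 0)) * h2p
  · rw [hb, e10, e11, e12, m00, m10, m20]
    simp only [map_add, map_mul, map_one, φv, hd0', z1, f11, f21, g21, rV, rT]
    ring
  · rw [hb, e10, e11, e12, m01, m11, m21]
    simp only [map_add, map_mul, map_one, φv, hd1', z1, f11, f21, g21, rV, rT]
    ring

open TensorProduct in
/-- The stably free module `ker (theRow)` over `A[T]` is not extended from `A`. -/
theorem not_extended {F : k →+ k} (hF : ∀ r f, F (r ^ 2 * f) = r * F f) (v w t u : k)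
    (h1 : F 1 = 1) (hv : F v = 0) (hw : F w = 0) (hvw : F (v * w) = 0)
    (htv : t * v = 1) (huw : u * w = 1) (Q : Type) [AddCommGroup Q] [Module (Acex k) Q]
    (ψ : LinearMap.ker (rowMap (theRow w t u)) ≃ₗ[PR (Acex k)] PR (Acex k) ⊗[Acex k] Q) :
    False := by
  obtain ⟨e0⟩ := spec_equiv Q (0 : Acex k) _ _ (row_col v w t u htv huw) ψ
  obtain ⟨e1⟩ := spec_equiv Q (1 : Acex k) _ _ (row_col v w t u htv huw) ψ
  rw [ev0_row] at e0
  exact not_free hF v w t u h1 hv hw hvw htv huw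
    ((kerStd (Acex k)).trans (e0.trans e1.symm))

end Pool.Agent.LamCex
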